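import Pool.Agent.W823.QT.Stm

/-!
# Factorisation of the sum over the sets of arcs at the first uncrossed vertex
-/

set_option autoImplicit false

namespace Pool.Agent.W503.QTRENT

open MeasureTheory Filter Topology Pool.Agent.W823.QT
open scoped ENNReal NNReal

theorem split (w : ℕ × ℕ → ℝ≥0∞) (g : Finset (ℕ × ℕ) → ℝ≥0∞) (E R : Finset (ℕ × ℕ))
    (h : Disjoint E R) :
    ∑ S ∈ (E ∪ R).powerset, (∏ e ∈ S, w e) * g (S ∩ E) =
      (∑ S ∈ E.powerset, (∏ e ∈ S, w e) * g S) * ∏ e ∈ R, (1 + w e) := by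
  induction R using Finset.induction_on with
  | empty =>
    rw [Finset.union_empty, Finset.prod_empty, mul_one]
    refine Finset.sum_congr rfl fun S hS => ?_
    rw [Finset.inter_eq_left.2 (Finset.mem_powerset.1 hS)]
  | insert r R hr ih =>
    rw [Finset.disjoint_insert_right] at h
    have h1 := ih h.2
    have hrn : r ∉ E ∪ R := by
      rw [Finset.mem_union]
      exact fun h' => h'.elim h.1 hr
    rw [Finset.union_insert, Finset.sum_powerset_insert hrn, h1, Finset.prod_insert hr]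
    have h2 : ∑ t ∈ (E ∪ R).powerset, (∏ e ∈ insert r t, w e) * g (insert r t ∩ E) =
        w r * ∑ t ∈ (E ∪ R).powerset, (∏ e ∈ t, w e) * g (t ∩ E) := by
      rw [Finset.mul_sum]
      refine Finset.sum_congr rfl fun t ht => ?_
      have hrt : r ∉ t := fun h' => hrn (Finset.mem_powerset.1 ht h')
      rw [Finset.prod_insert hrt, Finset.insert_inter_of_notMem h.1, mul_assoc]
    rw [h2, h1]
    ring

theorem mem_arcs {n : ℕ} {e : ℕ × ℕ} : e ∈ arcs n ↔ e.1 < e.2 ∧ e.2 ≤ n := by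
  unfold arcs
  rw [Finset.mem_filter, Finset.mem_product, Finset.mem_range, Finset.mem_range]
  omega

/-- the shifted arcs -/
def sha (n l : ℕ) : Finset (ℕ × ℕ) := (arcs (n - l)).image fun e => (e.1 + l, e.2 + l)

theorem mem_sha {n l : ℕ} (h : l ≤ n) {e : ℕ × ℕ} : e ∈ sha n l ↔ l ≤ e.1 ∧ e.1 < e.2 ∧ e.2 ≤ n := by
  unfold sha
  rw [Finset.mem_image]
  constructor
  · rintro ⟨a, ha, rfl⟩
    rw [mem_arcs] at ha
    dsimp only
    omega
  · intro he
    refine ⟨(e.1 - l, e.2 - l), mem_arcs.2 ?_, ?_⟩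
    · dsimp only
      omega
    · ext <;> dsimp only <;> omega

theorem disj {n l : ℕ} (h : l ≤ n) : Disjoint (arcs l) (sha n l) := by
  rw [Finset.disjoint_left]
  intro e h1 h2
  rw [mem_arcs] at h1
  rw [mem_sha h] at h2
  omega

theorem sub_iff {n l : ℕ} (h : l ≤ n) (S : Finset (ℕ × ℕ)) :
    S ⊆ arcs l ∪ sha n l ↔ S ⊆ arcs n ∧ ∀ e ∈ S, ¬ (e.1 < l ∧ l < e.2) := by
  constructor
  · intro hS
    refine ⟨fun e he => ?_, fun e he => ?_⟩
    · have h1 := hS he
      rw [Finset.mem_union, mem_arcs, mem_sha h] at h1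
      rw [mem_arcs]
      omega
    · have h1 := hS he
      rw [Finset.mem_union, mem_arcs, mem_sha h] at h1
      omega
  · rintro ⟨h1, h2⟩ e he
    have h3 := h1 he
    have h4 := h2 e he
    rw [mem_arcs] at h3
    rw [Finset.mem_union, mem_arcs, mem_sha h]
    omega

theorem irr_iff {n l : ℕ} (h : l ≤ n) {S : Finset (ℕ × ℕ)} (hS : S ⊆ arcs l ∪ sha n l) :
    Irr l S ↔ Irr l (S ∩ arcs l) := by
  constructor
  · intro hI v hv hvl
    obtain ⟨e, he, h1, h2⟩ := hI v hv hvl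
    have h3 := hS he
    rw [Finset.mem_union, mem_sha h] at h3
    refine ⟨e, Finset.mem_inter.2 ⟨he, ?_⟩, h1, h2⟩
    rcases h3 with h3 | h3
    · exact h3
    · omega
  · intro hI v hv hvl
    obtain ⟨e, he, h1, h2⟩ := hI v hv hvl
    exact ⟨e, (Finset.mem_inter.1 he).1, h1, h2⟩

theorem main : RENT_T := by
  classical
  intro w n l hl hln
  have e1 : wsum w n (fun S => ind (Irr l S ∧ ∀ e ∈ S, ¬ (e.1 < l ∧ l < e.2))) =
      ∑ S ∈ (arcs l ∪ sha n l).powerset, (∏ e ∈ S, w e) * ind (Irr l (S ∩ arcs l)) := by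
    unfold wsum
    symm
    have hsub : (arcs l ∪ sha n l).powerset ⊆ (arcs n).powerset := by
      intro S hS
      rw [Finset.mem_powerset] at hS ⊢
      exact ((sub_iff hln S).1 hS).1
    have h0 : ∑ S ∈ (arcs l ∪ sha n l).powerset, (∏ e ∈ S, w e) * ind (Irr l (S ∩ arcs l)) =
        ∑ S ∈ (arcs l ∪ sha n l).powerset,
          (∏ e ∈ S, w e) * ind (Irr l S ∧ ∀ e ∈ S, ¬ (e.1 < l ∧ l < e.2)) := by
      refine Finset.sum_congr rfl fun S hS => ?_
      rw [Finset.mem_powerset] at hS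
      congr 2
      apply propext
      rw [← irr_iff hln hS]
      exact ⟨fun h => ⟨h, ((sub_iff hln S).1 hS).2⟩, fun h => h.1⟩
    rw [h0]
    refine Finset.sum_subset hsub fun S hS hS' => ?_
    have h1 : ¬ (Irr l S ∧ ∀ e ∈ S, ¬ (e.1 < l ∧ l < e.2)) := by
      rintro ⟨_, h2⟩
      exact hS' (Finset.mem_powerset.2 ((sub_iff hln S).2 ⟨Finset.mem_powerset.1 hS, h2⟩))
    rw [ind, if_neg h1, mul_zero]
  rw [e1, split w (fun S => ind (Irr l S)) (arcs l) (sha n l) (disj hln)]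
  unfold kk wsum
  congr 1
  unfold sha
  rw [Finset.prod_image]
  rintro ⟨a, b⟩ _ ⟨a', b'⟩ _ h
  simp only [Prod.mk.injEq] at h ⊢
  omega

end Pool.Agent.W503.QTRENT
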