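import Pool.Agent.W384.Defs

/-!
The Mellin transform of a theta-like series whose functional equation has sign `-1`.
-/

set_option autoImplicit false

open MeasureTheory Filter Topology Set

namespace Pool.Agent.W503.MV

/-- exponential decay beats every power, on `[1, ∞)`. -/
lemma exp_le_rpow (M : ℝ) : ∃ K : ℝ, 0 ≤ K ∧
    ∀ t : ℝ, 1 ≤ t → Real.exp (-Real.pi * t) ≤ K * t ^ (-M) := by
  obtain ⟨n, hn⟩ := exists_nat_ge M
  refine ⟨(n.factorial : ℝ), by positivity, fun t ht => ?_⟩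
  have ht0 : 0 < t := by linarith
  have h1 : t ^ M ≤ t ^ n := by
    have := Real.rpow_le_rpow_of_exponent_le ht hn
    rwa [Real.rpow_natCast] at this
  have h2 : t ^ n ≤ (n.factorial : ℝ) * Real.exp t := by
    have := Real.pow_div_factorial_le_exp t ht0.le n
    rwa [div_le_iff₀ (by positivity), mul_comm] at this
  have h3 : Real.exp t * Real.exp (-Real.pi * t) ≤ 1 := by
    rw [← Real.exp_add]
    apply Real.exp_le_one_iff.2
    nlinarith [Real.pi_gt_three]
  have hpos : 0 < t ^ M := Real.rpow_pos_of_pos ht0 M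
  rw [Real.rpow_neg ht0.le, ← div_eq_mul_inv, le_div_iff₀ hpos]
  calc Real.exp (-Real.pi * t) * t ^ M
      ≤ Real.exp (-Real.pi * t) * ((n.factorial : ℝ) * Real.exp t) := by
        gcongr
        exact h1.trans h2
    _ = (n.factorial : ℝ) * (Real.exp t * Real.exp (-Real.pi * t)) := by ring
    _ ≤ (n.factorial : ℝ) * 1 := by gcongr
    _ = (n.factorial : ℝ) := mul_one _

/-- power bounds of every large order for `w`. -/
lemma w_bound (w : ℝ → ℂ) (C A : ℝ)
    (hw1 : ∀ t : ℝ, 1 ≤ t → ‖w t‖ ≤ C * Real.exp (-Real.pi * t))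
    (hw0 : ∀ t : ℝ, 0 < t → t ≤ 1 → ‖w t‖ ≤ C * t ^ (-A)) (M : ℝ) (hM : A ≤ M) :
    ∃ K : ℝ, 0 ≤ K ∧ ∀ t : ℝ, 0 < t → ‖w t‖ ≤ K * t ^ (-M) := by
  obtain ⟨K, hK, hKt⟩ := exp_le_rpow M
  refine ⟨|C| * (K + 1), by positivity, fun t ht => ?_⟩
  have hp : 0 < t ^ (-M) := Real.rpow_pos_of_pos ht _
  rcases le_total 1 t with h | h
  · calc ‖w t‖ ≤ C * Real.exp (-Real.pi * t) := hw1 t h
      _ ≤ |C| * Real.exp (-Real.pi * t) := by gcongr; exact le_abs_self C
      _ ≤ |C| * (K * t ^ (-M)) := by gcongr; exact hKt t h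
      _ ≤ |C| * (K + 1) * t ^ (-M) := by
        have : 0 ≤ |C| * t ^ (-M) := by positivity
        nlinarith
  · have h1 : t ^ (-A) ≤ t ^ (-M) :=
      Real.rpow_le_rpow_of_exponent_ge ht h (by linarith)
    calc ‖w t‖ ≤ C * t ^ (-A) := hw0 t ht h
      _ ≤ |C| * t ^ (-A) := by
        have : 0 < t ^ (-A) := Real.rpow_pos_of_pos ht _
        gcongr; exact le_abs_self C
      _ ≤ |C| * t ^ (-M) := by gcongr
      _ ≤ |C| * (K + 1) * t ^ (-M) := by
        have : 0 ≤ |C| * K * t ^ (-M) := by positivity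
        nlinarith

section

variable (w : ℝ → ℂ) (C A B : ℝ)
  (hw1 : ∀ t : ℝ, 1 ≤ t → ‖w t‖ ≤ C * Real.exp (-Real.pi * t))
  (hw0 : ∀ t : ℝ, 0 < t → t ≤ 1 → ‖w t‖ ≤ C * t ^ (-A))
  (b : ℕ → ℂ) (hb0 : b 0 = 0) (hb : ∀ n : ℕ, 1 ≤ n → ‖b n‖ ≤ C * (n : ℝ) ^ B) (q : ℝ)
  (hq : 0 < q)

include hw1 hw0 hb0 hb hq in
/-- termwise bound. -/
lemma term_bound (M : ℝ) (hM : A ≤ M) : ∃ K : ℝ, 0 ≤ K ∧ ∀ t : ℝ, 0 < t → ∀ n : ℕ,
    ‖b n * w (n * t / q)‖ ≤ K * (n : ℝ) ^ (B - M) * t ^ (-M) := by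
  obtain ⟨K, hK, hKt⟩ := w_bound w C A hw1 hw0 M hM
  have hC : 0 ≤ C := by
    have h := hb 1 le_rfl
    have : (0:ℝ) ≤ C * ((1:ℕ) : ℝ) ^ B := (norm_nonneg _).trans h
    simpa using this
  refine ⟨C * K * q ^ M, by positivity, fun t ht n => ?_⟩
  rcases Nat.eq_zero_or_pos n with rfl | hn
  · simp only [hb0, zero_mul, norm_zero]
    positivity
  · have hn' : (0:ℝ) < n := by exact_mod_cast hn
    have h1 := hKt (n * t / q) (by positivity)
    have h2 := hb n hn
    rw [norm_mul]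
    have e : ((n:ℝ) * t / q) ^ (-M) = (n:ℝ) ^ (-M) * t ^ (-M) * q ^ M := by
      rw [Real.div_rpow (by positivity) hq.le, Real.mul_rpow hn'.le ht.le, Real.rpow_neg hq.le,
        div_inv_eq_mul]
    rw [e] at h1
    calc ‖b n‖ * ‖w (n * t / q)‖
        ≤ (C * (n:ℝ) ^ B) * (K * ((n:ℝ) ^ (-M) * t ^ (-M) * q ^ M)) := by gcongr
      _ = C * K * q ^ M * ((n:ℝ) ^ B * (n:ℝ) ^ (-M)) * t ^ (-M) := by ring
      _ = C * K * q ^ M * (n:ℝ) ^ (B - M) * t ^ (-M) := by
        rw [← Real.rpow_add hn', ← sub_eq_add_neg]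

/-- the theta-like series. -/
noncomputable def hh (w : ℝ → ℂ) (b : ℕ → ℂ) (q : ℝ) (t : ℝ) : ℂ := ∑' n : ℕ, b n * w (n * t / q)

include hw1 hw0 hb0 hb hq in
lemma hh_bound (M : ℝ) (hM : A ≤ M) (hM2 : B + 1 < M) :
    ∃ K : ℝ, 0 ≤ K ∧ ∀ t : ℝ, 0 < t → ‖hh w b q t‖ ≤ K * t ^ (-M) := by
  obtain ⟨K, hK, hKt⟩ := term_bound w C A B hw1 hw0 b hb0 hb q hq M hM
  have hs : Summable (fun n : ℕ => (n : ℝ) ^ (B - M)) :=
    Real.summable_nat_rpow.2 (by linarith)
  refine ⟨K * ∑' n : ℕ, (n : ℝ) ^ (B - M), ?_, fun t ht => ?_⟩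
  · have : 0 ≤ ∑' n : ℕ, (n : ℝ) ^ (B - M) := tsum_nonneg fun n => by positivity
    positivity
  · have hs2 : HasSum (fun n : ℕ => K * (n : ℝ) ^ (B - M) * t ^ (-M))
        (K * (∑' n : ℕ, (n : ℝ) ^ (B - M)) * t ^ (-M)) :=
      (hs.hasSum.mul_left K).mul_right _
    exact tsum_of_norm_bounded hs2 (fun n => hKt t ht n)

include hw1 hw0 hb0 hb hq in
lemma hh_cont (hw : ContinuousOn w (Set.Ioi 0)) : ContinuousOn (hh w b q) (Set.Ioi 0) := by
  set M : ℝ := max A (B + 2) with hMdef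
  obtain ⟨K, hK, hKt⟩ := term_bound w C A B hw1 hw0 b hb0 hb q hq M (le_max_left _ _)
  have hMB : B + 2 ≤ M := le_max_right _ _
  have hM0 : B - M < -1 := by linarith
  have hs : Summable (fun n : ℕ => (n : ℝ) ^ (B - M)) := Real.summable_nat_rpow.2 hM0
  have key : ∀ t0 : ℝ, 0 < t0 → ∀ T : ℝ, ContinuousOn (hh w b q) (Set.Ioo t0 T) := by
    intro t0 ht0 T
    set L : ℝ := max (t0 ^ (-M)) (T ^ (-M)) with hL
    refine continuousOn_tsum (u := fun n : ℕ => K * (n : ℝ) ^ (B - M) * L) ?_ ?_ ?_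
    · intro n
      rcases Nat.eq_zero_or_pos n with rfl | hn
      · simp only [hb0, zero_mul]
        exact continuousOn_const
      · have hn' : (0:ℝ) < n := by exact_mod_cast hn
        refine continuousOn_const.mul (hw.comp (by fun_prop) ?_)
        intro t ht
        have : 0 < t := ht0.trans ht.1
        show (0:ℝ) < n * t / q
        positivity
    · exact (hs.mul_left K).mul_right L
    · intro n t ht
      have ht' : 0 < t := ht0.trans ht.1
      refine (hKt t ht' n).trans ?_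
      have hle : t ^ (-M) ≤ L := by
        rcases le_total 0 M with h | h
        · refine le_trans ?_ (le_max_left _ _)
          exact Real.rpow_le_rpow_of_nonpos ht0 ht.1.le (by linarith)
        · refine le_trans ?_ (le_max_right _ _)
          exact Real.rpow_le_rpow ht'.le ht.2.le (by linarith)
      gcongr
  intro t ht
  have ht' : (0:ℝ) < t := ht
  have h := (key (t / 2) (by positivity) (t + 1)) t ⟨by linarith, by linarith⟩
  exact (h.continuousAt (Ioo_mem_nhds (by linarith) (by linarith))).continuousWithinAt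

include hw1 hw0 hb0 hb hq in
/-- decay at infinity of every order -/
lemma hh_top (a : ℝ) : (hh w b q) =O[atTop] (fun t : ℝ => t ^ (-a)) := by
  set M : ℝ := max a (max A (B + 2)) with hM
  have h1 : A ≤ M := (le_max_left _ _).trans (le_max_right _ _)
  have h2 : B + 2 ≤ M := (le_max_right _ _).trans (le_max_right _ _)
  obtain ⟨K, hK, hKt⟩ := hh_bound w C A B hw1 hw0 b hb0 hb q hq M h1 (by linarith)
  refine Asymptotics.IsBigO.of_bound K ?_
  filter_upwards [eventually_ge_atTop (1 : ℝ)] with t ht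
  have ht0 : 0 < t := by linarith
  refine (hKt t ht0).trans ?_
  rw [Real.norm_of_nonneg (Real.rpow_nonneg ht0.le _)]
  have : t ^ (-M) ≤ t ^ (-a) :=
    Real.rpow_le_rpow_of_exponent_le ht (neg_le_neg (le_max_left _ _))
  gcongr

variable (k : ℝ)
  (hfe : ∀ t : ℝ, 0 < t →
      ∑' n : ℕ, b n * w (n * t⁻¹ / q) = -((t ^ k : ℝ) : ℂ) * ∑' n : ℕ, b n * w (n * t / q))

include hw1 hw0 hb0 hb hq hfe in
/-- decay at zero of every order -/
lemma hh_bot (a : ℝ) : (hh w b q) =O[𝓝[>] 0] (fun t : ℝ => t ^ (-a)) := by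
  set M : ℝ := max (k - a) (max A (B + 2)) with hM
  have h1 : A ≤ M := (le_max_left _ _).trans (le_max_right _ _)
  have h2 : B + 2 ≤ M := (le_max_right _ _).trans (le_max_right _ _)
  have h3 : k - a ≤ M := le_max_left _ _
  obtain ⟨K, hK, hKt⟩ := hh_bound w C A B hw1 hw0 b hb0 hb q hq M h1 (by linarith)
  refine Asymptotics.IsBigO.of_bound K ?_
  filter_upwards [Ioo_mem_nhdsGT (show (0:ℝ) < 1 by norm_num)] with t ht
  have ht0 : 0 < t := ht.1
  have e1 : hh w b q t = -(((t⁻¹) ^ k : ℝ) : ℂ) * hh w b q t⁻¹ := by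
    have := hfe t⁻¹ (inv_pos.2 ht0)
    rw [inv_inv] at this
    exact this
  rw [e1, norm_mul, norm_neg, Complex.norm_real,
    Real.norm_of_nonneg (Real.rpow_nonneg (inv_nonneg.2 ht0.le) _),
    Real.norm_of_nonneg (Real.rpow_nonneg ht0.le _)]
  have h4 := hKt t⁻¹ (inv_pos.2 ht0)
  have e2 : (t⁻¹) ^ (-M) = t ^ M := by
    rw [Real.inv_rpow ht0.le, Real.rpow_neg ht0.le, inv_inv]
  have e3 : (t⁻¹) ^ k = t ^ (-k) := by
    rw [Real.inv_rpow ht0.le, Real.rpow_neg ht0.le]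
  rw [e2] at h4
  rw [e3]
  calc t ^ (-k) * ‖hh w b q t⁻¹‖ ≤ t ^ (-k) * (K * t ^ M) := by gcongr
    _ = K * (t ^ (-k) * t ^ M) := by ring
    _ = K * t ^ (-k + M) := by rw [← Real.rpow_add ht0]
    _ ≤ K * t ^ (-a) := by
      have : t ^ (-k + M) ≤ t ^ (-a) :=
        Real.rpow_le_rpow_of_exponent_ge ht0 ht.2.le (by linarith)
      gcongr

end

lemma mellinConv_w (w : ℝ → ℂ) (hw : ContinuousOn w (Set.Ioi 0)) (C A : ℝ)
    (hw1 : ∀ t : ℝ, 1 ≤ t → ‖w t‖ ≤ C * Real.exp (-Real.pi * t))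
    (hw0 : ∀ t : ℝ, 0 < t → t ≤ 1 → ‖w t‖ ≤ C * t ^ (-A)) (s : ℂ) (hs : A < s.re) :
    MellinConvergent w s := by
  refine mellinConvergent_of_isBigO_rpow (a := s.re + 1) (b := A)
    (hw.locallyIntegrableOn measurableSet_Ioi) ?_ (by linarith) ?_ hs
  · obtain ⟨K, hK, hKt⟩ := w_bound w C A hw1 hw0 (s.re + 1) (by linarith)
    refine Asymptotics.IsBigO.of_bound K ?_
    filter_upwards [eventually_ge_atTop (1 : ℝ)] with t ht
    have ht0 : 0 < t := by linarith
    rw [Real.norm_of_nonneg (Real.rpow_nonneg ht0.le _)]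
    exact hKt t ht0
  · obtain ⟨K, hK, hKt⟩ := w_bound w C A hw1 hw0 A le_rfl
    refine Asymptotics.IsBigO.of_bound K ?_
    filter_upwards [self_mem_nhdsWithin] with t ht
    have ht0 : 0 < t := ht
    rw [Real.norm_of_nonneg (Real.rpow_nonneg ht0.le _)]
    exact hKt t ht0

lemma norm_int (w : ℝ → ℂ) (s : ℂ) (c : ℝ) (hc : 0 < c) :
    ∫ t in Set.Ioi (0:ℝ), ‖(t : ℂ) ^ (s - 1) • w (c * t)‖ =
      c ^ (-s.re) * ∫ t in Set.Ioi (0:ℝ), t ^ (s.re - 1) * ‖w t‖ := by
  have h1 : ∀ t ∈ Set.Ioi (0:ℝ), ‖(t : ℂ) ^ (s - 1) • w (c * t)‖ =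
      c ^ (1 - s.re) * ((c * t) ^ (s.re - 1) * ‖w (c * t)‖) := by
    intro t ht
    have ht0 : (0:ℝ) < t := ht
    rw [norm_smul, Complex.norm_cpow_eq_rpow_re_of_pos ht0, Real.mul_rpow hc.le ht0.le]
    have : c ^ (1 - s.re) * c ^ (s.re - 1) = 1 := by
      rw [← Real.rpow_add hc]; simp
    simp only [Complex.sub_re, Complex.one_re]
    linear_combination (-(t ^ (s.re - 1) * ‖w (c * t)‖)) * this
  rw [setIntegral_congr_fun measurableSet_Ioi h1, integral_const_mul]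
  have h2 := MeasureTheory.integral_comp_mul_left_Ioi
    (fun x : ℝ => x ^ (s.re - 1) * ‖w x‖) 0 hc
  rw [mul_zero] at h2
  rw [h2, smul_eq_mul, ← mul_assoc]
  congr 1
  rw [← Real.rpow_neg_one c, ← Real.rpow_add hc]
  congr 1
  ring

theorem mellin_vanish (w : ℝ → ℂ) (hw : ContinuousOn w (Set.Ioi 0)) (C A B : ℝ)
    (hw1 : ∀ t : ℝ, 1 ≤ t → ‖w t‖ ≤ C * Real.exp (-Real.pi * t))
    (hw0 : ∀ t : ℝ, 0 < t → t ≤ 1 → ‖w t‖ ≤ C * t ^ (-A))
    (b : ℕ → ℂ) (hb0 : b 0 = 0) (hb : ∀ n : ℕ, 1 ≤ n → ‖b n‖ ≤ C * (n : ℝ) ^ B) (q : ℝ)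
    (hq : 0 < q) (k : ℝ)
    (hfe : ∀ t : ℝ, 0 < t →
      ∑' n : ℕ, b n * w (n * t⁻¹ / q) = -((t ^ k : ℝ) : ℂ) * ∑' n : ℕ, b n * w (n * t / q)) :
    ∃ H : ℂ → ℂ, Differentiable ℂ H ∧ (∀ s : ℂ, H (k - s) = - H s) ∧
      ∃ σ : ℝ, ∀ s : ℂ, σ < s.re →
        H s = (q : ℂ) ^ s * mellin w s * ∑' n : ℕ, b n * (n : ℂ) ^ (-s) := by
  have hcont := hh_cont w C A B hw1 hw0 b hb0 hb q hq hw
  have hli : LocallyIntegrableOn (hh w b q) (Set.Ioi 0) :=
    hcont.locallyIntegrableOn measurableSet_Ioi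
  have htop := hh_top w C A B hw1 hw0 b hb0 hb q hq
  have hbot := hh_bot w C A B hw1 hw0 b hb0 hb q hq k hfe
  refine ⟨mellin (hh w b q), ?_, ?_, ?_⟩
  · intro s
    exact mellin_differentiableAt_of_isBigO_rpow hli (htop (s.re + 1)) (by linarith)
      (hbot (s.re - 1)) (by linarith)
  · intro s
    have h1 := mellin_comp_inv (hh w b q) (s - k)
    have h3 : mellin (fun t => hh w b q t⁻¹) (s - k) =
        mellin (fun t : ℝ => (t:ℂ) ^ (k:ℂ) • ((-1 : ℂ) • (hh w b q t))) (s - k) := by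
      unfold mellin
      refine setIntegral_congr_fun measurableSet_Ioi fun t ht => ?_
      have ht0 : (0:ℝ) < t := ht
      have := hfe t ht0
      change (t : ℂ) ^ (s - k - 1) • hh w b q t⁻¹ = _
      have e : hh w b q t⁻¹ = -((t ^ k : ℝ) : ℂ) * hh w b q t := this
      rw [e, Complex.ofReal_cpow ht0.le]
      simp only [smul_eq_mul]
      ring
    rw [h3, mellin_cpow_smul, mellin_const_smul, sub_add_cancel] at h1
    rw [show (k : ℂ) - s = -(s - k) by ring, ← h1]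
    simp
  · refine ⟨max A (B + 2), fun s hs => ?_⟩
    have hsA : A < s.re := (le_max_left _ _).trans_lt hs
    have hsB : B + 2 < s.re := (le_max_right _ _).trans_lt hs
    have hmw := mellinConv_w w hw C A hw1 hw0 s hsA
    set F : ℕ → ℝ → ℂ := fun n t => (t : ℂ) ^ (s - 1) • (b n * w (n * t / q)) with hF
    have hFn : ∀ n : ℕ, 1 ≤ n → F n = fun t : ℝ => b n • ((t : ℂ) ^ (s - 1) • w ((n : ℝ) / q * t)) := by
      intro n hn
      funext t
      simp only [hF, smul_eq_mul]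
      rw [show (n : ℝ) * t / q = n / q * t by ring]
      ring
    have hF0 : F 0 = fun _ => 0 := by
      funext t
      simp [hF, hb0]
    have hcn : ∀ n : ℕ, 1 ≤ n → (0:ℝ) < (n : ℝ) / q := fun n hn => by
      have : (0:ℝ) < n := by exact_mod_cast hn
      positivity
    have hint : ∀ n : ℕ, Integrable (F n) (volume.restrict (Set.Ioi 0)) := by
      intro n
      rcases Nat.eq_zero_or_pos n with rfl | hn
      · rw [hF0]; exact integrable_zero _ _ _
      · rw [hFn n hn]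
        have h := (MellinConvergent.comp_mul_left (f := w) (s := s) (hcn n hn)).2 hmw
        exact Integrable.smul (b n) h
    set I : ℝ := ∫ t in Set.Ioi (0:ℝ), t ^ (s.re - 1) * ‖w t‖ with hI
    have hI0 : 0 ≤ I := setIntegral_nonneg measurableSet_Ioi fun t ht => by
      have : (0:ℝ) < t := ht
      positivity
    have hsum : Summable fun n : ℕ => ∫ t in Set.Ioi (0:ℝ), ‖F n t‖ := by
      refine Summable.of_nonneg_of_le (g := fun n : ℕ => ∫ t in Set.Ioi (0:ℝ), ‖F n t‖)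
        (f := fun n : ℕ => (|C| * q ^ s.re * I) * (n : ℝ) ^ (B - s.re))
        (fun n => integral_nonneg fun t => norm_nonneg _) ?_ ?_
      · intro n
        rcases Nat.eq_zero_or_pos n with rfl | hn
        · rw [hF0]
          simp only [norm_zero, integral_zero]
          positivity
        · rw [hFn n hn]
          simp only [norm_smul (b n)]
          rw [integral_const_mul, norm_int w s _ (hcn n hn)]
          have hn' : (0:ℝ) < n := by exact_mod_cast hn
          have h2 := hb n hn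
          have h3 : ‖b n‖ ≤ |C| * (n:ℝ) ^ B := h2.trans (by gcongr; exact le_abs_self C)
          have e : ((n:ℝ) / q) ^ (-s.re) = (n:ℝ) ^ (-s.re) * q ^ s.re := by
            rw [Real.div_rpow hn'.le hq.le, Real.rpow_neg hq.le, div_inv_eq_mul]
          rw [e]
          calc ‖b n‖ * ((n:ℝ) ^ (-s.re) * q ^ s.re * I)
              ≤ (|C| * (n:ℝ) ^ B) * ((n:ℝ) ^ (-s.re) * q ^ s.re * I) := by gcongr
            _ = (|C| * q ^ s.re * I) * ((n:ℝ) ^ B * (n:ℝ) ^ (-s.re)) := by ring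
            _ = (|C| * q ^ s.re * I) * (n : ℝ) ^ (B - s.re) := by
              rw [← Real.rpow_add hn', ← sub_eq_add_neg]
      · exact (Real.summable_nat_rpow.2 (by linarith)).mul_left _
    have hmain := hasSum_integral_of_summable_integral_norm hint hsum
    have e1 : ∫ t in Set.Ioi (0:ℝ), ∑' n : ℕ, F n t = mellin (hh w b q) s := by
      unfold mellin hh
      refine setIntegral_congr_fun measurableSet_Ioi fun t ht => ?_
      simp only [hF, smul_eq_mul]
      rw [tsum_mul_left]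
    have e2 : ∀ n : ℕ, ∫ t in Set.Ioi (0:ℝ), F n t =
        ((q : ℂ) ^ s * mellin w s) * (b n * (n : ℂ) ^ (-s)) := by
      intro n
      rcases Nat.eq_zero_or_pos n with rfl | hn
      · rw [hF0]; simp [hb0]
      · rw [hFn n hn, integral_smul]
        have h := mellin_comp_mul_left w s (hcn n hn)
        unfold mellin at h
        rw [h]
        have hn' : (0:ℝ) < n := by exact_mod_cast hn
        have e : (((n:ℝ) / q : ℝ) : ℂ) ^ (-s) = (n:ℂ) ^ (-s) * (q:ℂ) ^ s := by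
          rw [div_eq_mul_inv, Complex.ofReal_mul,
            Complex.mul_cpow_ofReal_nonneg hn'.le (inv_nonneg.2 hq.le), Complex.ofReal_inv,
            Complex.inv_cpow _ _ (by
              rw [Complex.arg_ofReal_of_nonneg hq.le]; exact Real.pi_ne_zero.symm),
            Complex.cpow_neg (q:ℂ) s, inv_inv, Complex.ofReal_natCast]
        rw [e]
        unfold mellin
        simp only [smul_eq_mul]
        ring
    rw [e1] at hmain
    simp only [e2] at hmain
    rw [← hmain.tsum_eq, tsum_mul_left]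

end Pool.Agent.W503.MV
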