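import Pool.Agent.W982.CP.Geo

set_option autoImplicit false

/-! # CP-CNT and CP-COMPL -/

namespace Pool.Agent.W503.CP

open Pool.Agent.W982.CP

theorem t_CNT : S_CNT := by
  intro n t E hN T hT hsub
  have h1 : T.length = ((pts n t E).filter fun p => decide (p ∈ T)).length := by
    apply List.Perm.length_eq
    apply List.perm_of_nodup_nodup_toFinset_eq hT (hN.filter _)
    ext p
    simp only [List.mem_toFinset, List.mem_filter, decide_eq_true_eq]
    constructor
    · exact fun h => ⟨hsub p h, h⟩
    · exact fun h => h.2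
  rw [h1]
  unfold pts
  rw [List.filter_flatMap, List.length_flatMap]
  congr 1
  apply List.map_congr_left
  intro b _
  unfold blobPts
  rw [List.filter_flatMap, List.length_flatMap]
  have h3 : List.range 3 = [0, 1, 2] := rfl
  rw [h3]
  simp only [List.map_cons, List.map_nil, List.sum_cons, List.sum_nil, List.filter_map,
    List.length_map, cls, Function.comp_def]
  omega

theorem compl_aux (n t : ℕ) (hR : S_RECT) (hS : S_SUB) (Q : List Quad) :
    (∀ q ∈ Q, q.1 < n ∧ q.2.1 < n ∧ q.2.2.1 < n ∧ q.2.2.2 < n) →
    ∀ bs : List Blob, (∀ b ∈ bs, ∃ q ∈ Q, b ∈ rect q) →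
    ∃ y : List (List (ℚ × ℚ)), y.flatten.Perm (bs.flatMap (blobPts n t)) ∧ (∀ T ∈ y, ConvPos T) ∧
      y.length = Q.length := by
  induction Q with
  | nil =>
    intro _ bs hbs
    refine ⟨[], ?_, by simp, rfl⟩
    have : bs = [] := by
      apply List.eq_nil_iff_forall_not_mem.2
      intro b hb
      obtain ⟨q, hq, _⟩ := hbs b hb
      simp at hq
    subst this
    simp
  | cons q Q ih =>
    intro hQ bs hbs
    obtain ⟨y, hy1, hy2, hy3⟩ := ih (fun q hq => hQ q (List.mem_cons_of_mem _ hq))
      (bs.filter fun b => !decide (b ∈ rect q)) (by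
        intro b hb
        rw [List.mem_filter] at hb
        obtain ⟨q', hq', hb'⟩ := hbs b hb.1
        rcases List.mem_cons.1 hq' with h | h
        · exfalso
          subst h
          simp [hb'] at hb
        · exact ⟨q', h, hb'⟩)
    refine ⟨((bs.filter fun b => decide (b ∈ rect q)).flatMap (blobPts n t)) :: y, ?_, ?_, ?_⟩
    · rw [List.flatten_cons]
      refine (List.Perm.append_left _ hy1).trans ?_
      rw [← List.flatMap_append]
      exact (List.filter_append_perm (fun b => decide (b ∈ rect q)) bs).flatMap_right _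
    · intro T hT
      rcases List.mem_cons.1 hT with h | h
      · subst h
        obtain ⟨a1, a2, a3, a4⟩ := hQ q List.mem_cons_self
        apply hS _ _ (hR n t q a1 a2 a3 a4)
        intro p hp
        rw [List.mem_flatMap] at hp ⊢
        obtain ⟨b, hb, hp⟩ := hp
        rw [List.mem_filter] at hb
        exact ⟨b, by simpa using hb.2, hp⟩
      · exact hy2 T h
    · simp [hy3]

theorem t_COMPL : S_RECT → S_SUB → S_COMPL := by
  intro hR hS n t E Q hQ hE
  exact compl_aux n t hR hS Q hQ (blobs E) hE

end Pool.Agent.W503.CP
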