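import Pool.Agent.W982.CP.Gr

set_option autoImplicit false

/-! # CP-GC: completeness of the digraph (explicit cover) -/

namespace Pool.Agent.W503.CP

open Pool.Agent.W982.CP
open Pool.Agent.H243R3.TP (nxt nxt_lt f_nxt nxt_surj)

/-- the four rotations of a quadruple -/
def rots (q : Quad) : List Quad :=
  [q, (q.2.1, q.2.2.1, q.2.2.2, q.1), (q.2.2.1, q.2.2.2, q.1, q.2.1),
    (q.2.2.2, q.1, q.2.1, q.2.2.1)]

/-- all four types of the arc `e` are covered -/
def Cov (Q : List Quad) (e : ℕ × ℕ) : Prop := ∀ τ < 4, ∃ q ∈ Q, ((e, τ) : Blob) ∈ rect q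

lemma cov_rots {Q : List Quad} {w z y x : ℕ} (h : ∀ q ∈ rots (w, z, y, x), q ∈ Q) :
    Cov Q (w, z) ∧ Cov Q (z, y) ∧ Cov Q (y, x) ∧ Cov Q (x, w) := by
  have h0 := h (w, z, y, x) (by simp [rots])
  have h1 := h (z, y, x, w) (by simp [rots])
  have h2 := h (y, x, w, z) (by simp [rots])
  have h3 := h (x, w, z, y) (by simp [rots])
  refine ⟨?_, ?_, ?_, ?_⟩
  · intro τ hτ
    interval_cases τ
    · exact ⟨_, h1, by simp [rect]⟩
    · exact ⟨_, h2, by simp [rect]⟩
    · exact ⟨_, h3, by simp [rect]⟩
    · exact ⟨_, h0, by simp [rect]⟩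
  · intro τ hτ
    interval_cases τ
    · exact ⟨_, h2, by simp [rect]⟩
    · exact ⟨_, h3, by simp [rect]⟩
    · exact ⟨_, h0, by simp [rect]⟩
    · exact ⟨_, h1, by simp [rect]⟩
  · intro τ hτ
    interval_cases τ
    · exact ⟨_, h3, by simp [rect]⟩
    · exact ⟨_, h0, by simp [rect]⟩
    · exact ⟨_, h1, by simp [rect]⟩
    · exact ⟨_, h2, by simp [rect]⟩
  · intro τ hτ
    interval_cases τ
    · exact ⟨_, h0, by simp [rect]⟩
    · exact ⟨_, h1, by simp [rect]⟩
    · exact ⟨_, h2, by simp [rect]⟩
    · exact ⟨_, h3, by simp [rect]⟩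

lemma cov_dig {Q : List Quad} {u v : ℕ} (h1 : (u, v, u, v) ∈ Q) (h2 : (v, u, v, u) ∈ Q) :
    Cov Q (u, v) ∧ Cov Q (v, u) := by
  constructor
  · intro τ hτ
    interval_cases τ
    · exact ⟨_, h2, by simp [rect]⟩
    · exact ⟨_, h1, by simp [rect]⟩
    · exact ⟨_, h2, by simp [rect]⟩
    · exact ⟨_, h1, by simp [rect]⟩
  · intro τ hτ
    interval_cases τ
    · exact ⟨_, h1, by simp [rect]⟩
    · exact ⟨_, h2, by simp [rect]⟩
    · exact ⟨_, h1, by simp [rect]⟩
    · exact ⟨_, h2, by simp [rect]⟩

section

variable (f : ℕ → ℕ) (sg : ℕ → Bool) (m : ℕ) (val : ℕ → Bool)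

/-- the level `i` of the position `o` carries squares -/
def onb (o i : ℕ) : Bool := val (f o) == decide (i % 2 = 0)

/-- the square of the level -/
def sq (o i j : ℕ) : Quad :=
  if i % 2 = 0 then (vx o i j, vx o i ((j + 1) % 3), up f m o i ((j + 1) % 3), up f m o i j)
  else (vx o i ((j + 1) % 3), vx o i j, up f m o i j, up f m o i ((j + 1) % 3))

/-- the first position of the clause with a true literal (or 3) -/
def fp (c : ℕ) : ℕ :=
  if val (f (3 * c)) = sg (3 * c) then 0
  else if val (f (3 * c + 1)) = sg (3 * c + 1) then 1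
  else if val (f (3 * c + 2)) = sg (3 * c + 2) then 2 else 3

def exc (c p i j : ℕ) : Bool :=
  decide (fp f sg val c = p) && decide (i = if sg (3 * c + p) = true then 3 else 2) &&
    decide (j = if p = 1 then 1 else 0)

def cell (c p i j : ℕ) : List Quad :=
  if onb f val (3 * c + p) i = true then rots (sq f m (3 * c + p) i j)
  else if exc f sg val c p i j = true then []
  else [(vx (3 * c + p) i j, up f m (3 * c + p) i j, vx (3 * c + p) i j, up f m (3 * c + p) i j),
    (up f m (3 * c + p) i j, vx (3 * c + p) i j, up f m (3 * c + p) i j, vx (3 * c + p) i j)]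

/-- vertices of the hexagon, index mod 6 -/
def kk (c q : ℕ) : ℕ := hv sg c (q % 6)

def hexQ (c : ℕ) : List Quad :=
  if fp f sg val c < 3 then
    rots (kk sg c (fp f sg val c), kk sg c (fp f sg val c + 1), kk sg c (fp f sg val c + 2),
      kk sg c (fp f sg val c + 3)) ++
    rots (kk sg c (fp f sg val c + 3), kk sg c (fp f sg val c + 4), kk sg c (fp f sg val c + 5),
      kk sg c (fp f sg val c))
  else (List.range 6).flatMap fun q =>
    [(kk sg c q, kk sg c (q + 1), 0, 0), (0, kk sg c q, kk sg c (q + 1), 0),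
      (0, 0, kk sg c q, kk sg c (q + 1)), (kk sg c (q + 1), 0, 0, kk sg c q)]

def clQ (c : ℕ) : List Quad :=
  ((List.range 3).flatMap fun p => (List.range 8).flatMap fun i => (List.range 3).flatMap fun j =>
    cell f sg m val c p i j) ++ hexQ f sg val c

def allQ : List Quad := (List.range m).flatMap fun c => clQ f sg m val c

/-! ### lengths -/

/-- length of the cells of one position -/
def cl (v s ex : Bool) (g : ℕ) : ℕ :=
  ((List.range 8).map fun i => ((List.range 3).map fun j =>
    if (v == decide (i % 2 = 0)) = true then 4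
    else if (ex && decide (i = if s = true then 3 else 2) && decide (j = g)) = true then 0
    else 2).sum).sum

lemma cl_false : ∀ (v s : Bool) (g : Fin 2), cl v s false g = 72 := by decide
lemma cl_true : ∀ (v : Bool) (g : Fin 2), cl v v true g = 70 := by decide

lemma len_pos (c p : ℕ) :
    ((List.range 8).flatMap fun i => (List.range 3).flatMap fun j =>
      cell f sg m val c p i j).length =
    cl (val (f (3 * c + p))) (sg (3 * c + p)) (decide (fp f sg val c = p))
      (if p = 1 then 1 else 0) := by
  rw [List.length_flatMap]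
  unfold cl
  congr 1
  apply List.map_congr_left
  intro i _
  rw [List.length_flatMap]
  congr 1
  apply List.map_congr_left
  intro j _
  unfold cell onb exc
  split_ifs <;> simp [rots]

lemma fp_spec {c p : ℕ} (hp : p < 3) (h : fp f sg val c = p) :
    val (f (3 * c + p)) = sg (3 * c + p) := by
  unfold fp at h
  split_ifs at h with a1 a2 a3
  · subst h; exact a1
  · subst h; exact a2
  · subst h; exact a3
  · omega

lemma len_pos_le (c p : ℕ) (hp : p < 3) :
    ((List.range 8).flatMap fun i => (List.range 3).flatMap fun j =>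
      cell f sg m val c p i j).length = if fp f sg val c = p then 70 else 72 := by
  rw [len_pos]
  obtain ⟨g, hg⟩ : ∃ g : Fin 2, (if p = 1 then 1 else 0) = (g : ℕ) := by
    split_ifs
    · exact ⟨1, rfl⟩
    · exact ⟨0, rfl⟩
  rw [hg]
  by_cases h : fp f sg val c = p
  · rw [if_pos h, fp_spec f sg val hp h, decide_eq_true h]
    exact cl_true _ g
  · rw [if_neg h, decide_eq_false h]
    exact cl_false _ _ g

lemma len_clQ (c : ℕ) : (clQ f sg m val c).length ≤ 222 + if fp f sg val c < 3 then 0 else 18 := by
  unfold clQ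
  rw [List.length_append, List.length_flatMap]
  have h3 : List.range 3 = [0, 1, 2] := rfl
  have e : ((List.range 3).map fun p => ((List.range 8).flatMap fun i =>
      (List.range 3).flatMap fun j => cell f sg m val c p i j).length).sum =
      (if fp f sg val c = 0 then 70 else 72) + (if fp f sg val c = 1 then 70 else 72) +
      (if fp f sg val c = 2 then 70 else 72) := by
    rw [← len_pos_le f sg m val c 0 (by norm_num), ← len_pos_le f sg m val c 1 (by norm_num),
      ← len_pos_le f sg m val c 2 (by norm_num), h3]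
    simp only [List.map_cons, List.map_nil, List.sum_cons, List.sum_nil]
    ring
  rw [e]
  unfold hexQ
  have h4 : fp f sg val c ≤ 3 := by unfold fp; split_ifs <;> omega
  by_cases h5 : fp f sg val c < 3
  · rw [if_pos h5, if_pos h5]
    have : (rots (kk sg c (fp f sg val c), kk sg c (fp f sg val c + 1), kk sg c (fp f sg val c + 2),
      kk sg c (fp f sg val c + 3)) ++
      rots (kk sg c (fp f sg val c + 3), kk sg c (fp f sg val c + 4), kk sg c (fp f sg val c + 5),
      kk sg c (fp f sg val c))).length = 8 := by simp [rots]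
    rw [this]
    split_ifs <;> omega
  · rw [if_neg h5, if_neg h5, List.length_flatMap]
    simp only [List.length_cons, List.length_nil]
    have : fp f sg val c = 3 := by omega
    rw [this]
    simp

lemma fp_lt (c : ℕ) : ¬ fp f sg val c < 3 ↔ (val (f (3 * c)) ≠ sg (3 * c) ∧
    val (f (3 * c + 1)) ≠ sg (3 * c + 1) ∧ val (f (3 * c + 2)) ≠ sg (3 * c + 2)) := by
  unfold fp
  split_ifs with h1 h2 h3
  · simp [h1]
  · simp [h2]
  · simp [h3]
  · simp [h1, h2, h3]

lemma len_allQ : (allQ f sg m val).length ≤ 222 * m + 18 * uns f sg m val := by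
  unfold allQ uns
  rw [List.length_flatMap, ← List.countP_eq_length_filter]
  have h1 : ∀ l : List ℕ, (l.map fun c => (clQ f sg m val c).length).sum ≤
      222 * l.length + 18 * l.countP fun c => decide (val (f (3 * c)) ≠ sg (3 * c) ∧
        val (f (3 * c + 1)) ≠ sg (3 * c + 1) ∧ val (f (3 * c + 2)) ≠ sg (3 * c + 2)) := by
    intro l
    induction l with
    | nil => simp
    | cons c l ih =>
      rw [List.map_cons, List.sum_cons, List.length_cons, List.countP_cons]
      have h2 := len_clQ f sg m val c
      have h3 := fp_lt f sg val c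
      by_cases h4 : fp f sg val c < 3
      · rw [if_pos h4] at h2
        have h5 : ¬ (val (f (3 * c)) ≠ sg (3 * c) ∧
          val (f (3 * c + 1)) ≠ sg (3 * c + 1) ∧ val (f (3 * c + 2)) ≠ sg (3 * c + 2)) :=
          fun h => (h3.2 h) h4
        rw [if_neg (by simpa using h5)]
        omega
      · rw [if_neg h4] at h2
        rw [if_pos (by simpa using h3.1 h4)]
        omega
  have := h1 (List.range m)
  rw [List.length_range] at this
  exact this

/-! ### bounds -/

lemma vx_lt {o i j : ℕ} (ho : o < 3 * m) (hi : i < 8) (hj : j < 3) : vx o i j < 72 * m := by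
  unfold vx; omega

lemma up_lt {o i j : ℕ} (ho : o < 3 * m) (hi : i < 8) (hj : j < 3) : up f m o i j < 72 * m := by
  unfold up
  have := nxt_lt (f := f) ho
  split_ifs
  · exact vx_lt m this (by norm_num) hj
  · exact vx_lt m ho (by omega) hj

lemma hv_lt {c q : ℕ} (hc : c < m) : hv sg c q < 72 * m := by
  unfold hv rho
  have := fun o => vx_lt m (o := o) (i := 3) (j := 0)
  split_ifs <;> exact vx_lt m (by omega) (by norm_num) (by norm_num)

def OKq (q : Quad) : Prop := q.1 < 72 * m ∧ q.2.1 < 72 * m ∧ q.2.2.1 < 72 * m ∧ q.2.2.2 < 72 * m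

lemma ok_rots {w z y x : ℕ} (h1 : w < 72 * m) (h2 : z < 72 * m) (h3 : y < 72 * m)
    (h4 : x < 72 * m) : ∀ q ∈ rots (w, z, y, x), OKq m q := by
  intro q hq
  simp only [rots, List.mem_cons, List.not_mem_nil, or_false] at hq
  rcases hq with h | h | h | h <;> subst h <;> exact ⟨by assumption, by assumption, by assumption, by assumption⟩

lemma ok_all : ∀ q ∈ allQ f sg m val, OKq m q := by
  intro q hq
  unfold allQ at hq
  rw [List.mem_flatMap] at hq
  obtain ⟨c, hc, hq⟩ := hq
  rw [List.mem_range] at hc
  unfold clQ at hq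
  rcases List.mem_append.1 hq with hq | hq
  · simp only [List.mem_flatMap, List.mem_range] at hq
    obtain ⟨p, hp, i, hi, j, hj, hq⟩ := hq
    have ho : 3 * c + p < 3 * m := by omega
    have a1 := vx_lt m ho hi hj
    have a2 := vx_lt m ho hi (Nat.mod_lt (j + 1) (by norm_num : 0 < 3))
    have a3 := up_lt f m ho hi hj
    have a4 := up_lt f m ho hi (Nat.mod_lt (j + 1) (by norm_num : 0 < 3))
    unfold cell at hq
    split_ifs at hq
    · unfold sq at hq
      split_ifs at hq
      · exact ok_rots m a1 a2 a4 a3 q hq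
      · exact ok_rots m a2 a1 a3 a4 q hq
    · simp at hq
    · simp only [List.mem_cons, List.not_mem_nil, or_false] at hq
      rcases hq with h | h <;> subst h
      · exact ⟨a1, a3, a1, a3⟩
      · exact ⟨a3, a1, a3, a1⟩
  · unfold hexQ at hq
    have hk : ∀ q, kk sg c q < 72 * m := fun q => hv_lt sg m hc
    split_ifs at hq
    · rcases List.mem_append.1 hq with hq | hq
      · exact ok_rots m (hk _) (hk _) (hk _) (hk _) q hq
      · exact ok_rots m (hk _) (hk _) (hk _) (hk _) q hq
    · simp only [List.mem_flatMap, List.mem_range, List.mem_cons, List.not_mem_nil, or_false] at hq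
      obtain ⟨q', hq', h⟩ := hq
      have h0 : 0 < 72 * m := by omega
      rcases h with h | h | h | h <;> subst h
      · exact ⟨hk _, hk _, h0, h0⟩
      · exact ⟨h0, hk _, hk _, h0⟩
      · exact ⟨h0, h0, hk _, hk _⟩
      · exact ⟨hk _, h0, h0, hk _⟩

/-! ### covering -/

variable {f sg m val}

lemma mem_cell {c p i j : ℕ} (hc : c < m) (hp : p < 3) (hi : i < 8) (hj : j < 3) {q : Quad}
    (hq : q ∈ cell f sg m val c p i j) : q ∈ allQ f sg m val := by
  unfold allQ clQ
  rw [List.mem_flatMap]
  refine ⟨c, List.mem_range.2 hc, List.mem_append.2 (Or.inl ?_)⟩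
  simp only [List.mem_flatMap, List.mem_range]
  exact ⟨p, hp, i, hi, j, hj, hq⟩

lemma mem_hex {c : ℕ} (hc : c < m) {q : Quad} (hq : q ∈ hexQ f sg val c) : q ∈ allQ f sg m val := by
  unfold allQ clQ
  rw [List.mem_flatMap]
  exact ⟨c, List.mem_range.2 hc, List.mem_append.2 (Or.inr hq)⟩

lemma cov_sq {o i j : ℕ} (ho : o < 3 * m) (hi : i < 8) (hj : j < 3) (hon : onb f val o i = true) :
    ∀ q ∈ rots (sq f m o i j), q ∈ allQ f sg m val := by
  intro q hq
  have e : 3 * (o / 3) + o % 3 = o := by omega
  apply mem_cell (c := o / 3) (p := o % 3) (i := i) (j := j) (by omega) (by omega) hi hj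
  unfold cell
  rw [e, if_pos hon]
  exact hq

lemma cov_sq_even {o i j : ℕ} (ho : o < 3 * m) (hi : i < 8) (hj : j < 3) (he : i % 2 = 0)
    (hon : onb f val o i = true) :
    Cov (allQ f sg m val) (vx o i j, vx o i ((j + 1) % 3)) ∧
    Cov (allQ f sg m val) (vx o i ((j + 1) % 3), up f m o i ((j + 1) % 3)) ∧
    Cov (allQ f sg m val) (up f m o i ((j + 1) % 3), up f m o i j) ∧
    Cov (allQ f sg m val) (up f m o i j, vx o i j) := by
  have := cov_sq (sg := sg) ho hi hj hon
  unfold sq at this
  rw [if_pos he] at this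
  exact cov_rots this

lemma cov_sq_odd {o i j : ℕ} (ho : o < 3 * m) (hi : i < 8) (hj : j < 3) (he : ¬ i % 2 = 0)
    (hon : onb f val o i = true) :
    Cov (allQ f sg m val) (vx o i ((j + 1) % 3), vx o i j) ∧
    Cov (allQ f sg m val) (vx o i j, up f m o i j) ∧
    Cov (allQ f sg m val) (up f m o i j, up f m o i ((j + 1) % 3)) ∧
    Cov (allQ f sg m val) (up f m o i ((j + 1) % 3), vx o i ((j + 1) % 3)) := by
  have := cov_sq (sg := sg) ho hi hj hon
  unfold sq at this
  rw [if_neg he] at this
  exact cov_rots this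

lemma cov_vert_on {o i j : ℕ} (ho : o < 3 * m) (hi : i < 8) (hj : j < 3)
    (hon : onb f val o i = true) :
    Cov (allQ f sg m val) (vx o i j, up f m o i j) ∧
    Cov (allQ f sg m val) (up f m o i j, vx o i j) := by
  have e : ((j + 2) % 3 + 1) % 3 = j := by omega
  by_cases he : i % 2 = 0
  · have h1 := cov_sq_even (sg := sg) ho hi hj he hon
    have h2 := cov_sq_even (sg := sg) (j := (j + 2) % 3) ho hi (by omega) he hon
    rw [e] at h2
    exact ⟨h2.2.1, h1.2.2.2⟩
  · have h1 := cov_sq_odd (sg := sg) ho hi hj he hon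
    have h2 := cov_sq_odd (sg := sg) (j := (j + 2) % 3) ho hi (by omega) he hon
    rw [e] at h2
    exact ⟨h1.2.1, h2.2.2.2⟩

/-- the level below -/
lemma below {o i : ℕ} (ho : o < 3 * m) (hi : i < 8) : ∃ o' < 3 * m, ∃ i' < 8, (i' + 1) % 8 = i ∧
    f o' = f o ∧ ∀ j, up f m o' i' j = vx o i j := by
  by_cases h : i = 0
  · obtain ⟨o', ho', h'⟩ := nxt_surj (f := f) ho
    refine ⟨o', ho', 7, by norm_num, by omega, ?_, ?_⟩
    · rw [← h']; exact (f_nxt ho').symm
    · intro j
      unfold up
      rw [if_pos rfl, h', h]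
  · refine ⟨o, ho, i - 1, by omega, by omega, rfl, ?_⟩
    intro j
    unfold up
    rw [if_neg (by omega)]
    congr 1
    omega

lemma cov_ring {o i j : ℕ} (ho : o < 3 * m) (hi : i < 8) (hj : j < 3) :
    Cov (allQ f sg m val) (ringA o i j) := by
  unfold ringA
  by_cases hon : onb f val o i = true
  · by_cases he : i % 2 = 0
    · rw [if_pos he]
      exact (cov_sq_even ho hi hj he hon).1
    · rw [if_neg he]
      exact (cov_sq_odd ho hi hj he hon).1
  · obtain ⟨o', ho', i', hi', h1, h2, h3⟩ := below (f := f) ho hi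
    have hon' : onb f val o' i' = true := by
      unfold onb at hon ⊢
      rw [h2]
      by_cases he : i % 2 = 0
      · have he' : ¬ i' % 2 = 0 := by omega
        simp only [he, he', decide_true, decide_false] at hon ⊢
        revert hon
        cases val (f o) <;> decide
      · have he' : i' % 2 = 0 := by omega
        simp only [he, he', decide_true, decide_false] at hon ⊢
        revert hon
        cases val (f o) <;> decide
    by_cases he : i % 2 = 0
    · rw [if_pos he]
      have := (cov_sq_odd (sg := sg) ho' hi' hj (by omega) hon').2.2.1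
      rw [h3, h3] at this
      exact this
    · rw [if_neg he]
      have := (cov_sq_even (sg := sg) ho' hi' hj (by omega) hon').2.2.1
      rw [h3, h3] at this
      exact this

lemma cov_hex {c q : ℕ} (hc : c < m) (hq : q < 6) :
    Cov (allQ f sg m val) (hv sg c q, hv sg c ((q + 1) % 6)) := by
  by_cases h : fp f sg val c < 3
  · have hs : ∀ x ∈ hexQ f sg val c, x ∈ allQ f sg m val := fun x hx => mem_hex hc hx
    unfold hexQ at hs
    rw [if_pos h] at hs
    have h1 := cov_rots (fun x hx => hs x (List.mem_append.2 (Or.inl hx)))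
    have h2 := cov_rots (fun x hx => hs x (List.mem_append.2 (Or.inr hx)))
    unfold kk at h1 h2
    interval_cases hfp : fp f sg val c <;> interval_cases q <;> norm_num at h1 h2 ⊢ <;> tauto
  · have hs : ∀ x ∈ hexQ f sg val c, x ∈ allQ f sg m val := fun x hx => mem_hex hc hx
    unfold hexQ at hs
    rw [if_neg h] at hs
    have hkk : kk sg c q = hv sg c q := by unfold kk; rw [Nat.mod_eq_of_lt hq]
    have hkk' : kk sg c (q + 1) = hv sg c ((q + 1) % 6) := rfl
    rw [← hkk, ← hkk']
    intro τ hτ
    interval_cases τ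
    · refine ⟨(kk sg c (q + 1), 0, 0, kk sg c q), hs _ ?_, by simp [rect]⟩
      simp only [List.mem_flatMap, List.mem_range]
      exact ⟨q, hq, by simp⟩
    · refine ⟨(0, 0, kk sg c q, kk sg c (q + 1)), hs _ ?_, by simp [rect]⟩
      simp only [List.mem_flatMap, List.mem_range]
      exact ⟨q, hq, by simp⟩
    · refine ⟨(0, kk sg c q, kk sg c (q + 1), 0), hs _ ?_, by simp [rect]⟩
      simp only [List.mem_flatMap, List.mem_range]
      exact ⟨q, hq, by simp⟩
    · refine ⟨(kk sg c q, kk sg c (q + 1), 0, 0), hs _ ?_, by simp [rect]⟩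
      simp only [List.mem_flatMap, List.mem_range]
      exact ⟨q, hq, by simp⟩

/-- the chords of the windows -/
lemma cov_chord {c : ℕ} (hc : c < m) (h : fp f sg val c < 3) :
    Cov (allQ f sg m val) (kk sg c (fp f sg val c), kk sg c (fp f sg val c + 3)) ∧
    Cov (allQ f sg m val) (kk sg c (fp f sg val c + 3), kk sg c (fp f sg val c)) := by
  have hs : ∀ x ∈ hexQ f sg val c, x ∈ allQ f sg m val := fun x hx => mem_hex hc hx
  unfold hexQ at hs
  rw [if_pos h] at hs
  have h1 := cov_rots (fun x hx => hs x (List.mem_append.2 (Or.inl hx)))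
  have h2 := cov_rots (fun x hx => hs x (List.mem_append.2 (Or.inr hx)))
  exact ⟨h2.2.2.2, h1.2.2.2⟩

lemma chord_eq {c p : ℕ} (hp : p < 3) :
    (sg (3 * c + p) = true → kk sg c p = (if p = 2 then vx (3 * c + 2) 3 0 else
      vx (3 * c + p) 4 (if p = 1 then 1 else 0)) ∧ kk sg c (p + 3) = (if p = 2 then vx (3 * c + 2) 4 0 else
      vx (3 * c + p) 3 (if p = 1 then 1 else 0))) ∧
    (sg (3 * c + p) = false → kk sg c p = (if p = 2 then vx (3 * c + 2) 3 0 else
      vx (3 * c + p) 2 (if p = 1 then 1 else 0)) ∧ kk sg c (p + 3) = (if p = 2 then vx (3 * c + 2) 2 0 else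
      vx (3 * c + p) 3 (if p = 1 then 1 else 0))) := by
  interval_cases p
  · constructor
    · intro h
      norm_num at h
      simp [kk, hv, rho, h]
    · intro h
      norm_num at h
      simp [kk, hv, rho, h]
  · constructor
    · intro h
      simp [kk, hv, rho, h]
    · intro h
      simp [kk, hv, rho, h]
  · constructor
    · intro h
      simp [kk, hv, rho, h]
    · intro h
      simp [kk, hv, rho, h]

lemma cov_vert {o i j : ℕ} (ho : o < 3 * m) (hi : i < 8) (hj : j < 3) :
    Cov (allQ f sg m val) (vx o i j, up f m o i j) ∧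
    Cov (allQ f sg m val) (up f m o i j, vx o i j) := by
  by_cases hon : onb f val o i = true
  · exact cov_vert_on ho hi hj hon
  obtain ⟨c, p, hc, hp, rfl⟩ : ∃ c p, c < m ∧ p < 3 ∧ o = 3 * c + p :=
    ⟨o / 3, o % 3, by omega, by omega, by omega⟩
  by_cases he : exc f sg val c p i j = true
  · unfold exc at he
    simp only [Bool.and_eq_true, decide_eq_true_eq] at he
    obtain ⟨⟨h1, h2⟩, h3⟩ := he
    have hch := cov_chord (m := m) hc (by rw [h1]; exact hp : fp f sg val c < 3)
    rw [h1] at hch
    obtain ⟨g1, g2⟩ := chord_eq (sg := sg) (c := c) hp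
    by_cases hs : sg (3 * c + p) = true
    · rw [if_pos hs] at h2
      obtain ⟨e1, e2⟩ := g1 hs
      rw [e1, e2] at hch
      subst h2 h3
      have eu : ∀ j, up f m (3 * c + p) 3 j = vx (3 * c + p) 4 j := by
        intro j; unfold up; rw [if_neg (by norm_num)]
      rw [eu]
      by_cases hp2 : p = 2
      · subst hp2
        simpa using hch
      · simp only [hp2, if_false] at hch
        exact ⟨hch.2, hch.1⟩
    · have hs' : sg (3 * c + p) = false := by simpa using hs
      rw [if_neg hs] at h2
      obtain ⟨e1, e2⟩ := g2 hs'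
      rw [e1, e2] at hch
      subst h2 h3
      have eu : ∀ j, up f m (3 * c + p) 2 j = vx (3 * c + p) 3 j := by
        intro j; unfold up; rw [if_neg (by norm_num)]
      rw [eu]
      by_cases hp2 : p = 2
      · subst hp2
        have := And.intro hch.2 hch.1
        simpa using this
      · simp only [hp2, if_false] at hch
        exact ⟨hch.1, hch.2⟩
  · have hm : ∀ x ∈ [(vx (3 * c + p) i j, up f m (3 * c + p) i j, vx (3 * c + p) i j,
          up f m (3 * c + p) i j),
        (up f m (3 * c + p) i j, vx (3 * c + p) i j, up f m (3 * c + p) i j,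
          vx (3 * c + p) i j)], x ∈ allQ f sg m val := by
      intro x hx
      apply mem_cell hc hp hi hj
      unfold cell
      rw [if_neg hon, if_neg he]
      exact hx
    exact cov_dig (hm _ (by simp)) (hm _ (by simp))

end

theorem t_GC : S_GC := by
  intro f sg m val
  refine ⟨allQ f sg m val, len_allQ f sg m val, ok_all f sg m val, ?_⟩
  rintro ⟨e, τ⟩ hb
  unfold blobs at hb
  simp only [List.mem_flatMap, List.mem_map, List.mem_range] at hb
  obtain ⟨e', he', τ', hτ', h⟩ := hb
  have h1 : e' = e := congrArg Prod.fst h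
  have h2 : τ' = τ := congrArg Prod.snd h
  subst h1 h2
  suffices Cov (allQ f sg m val) e' from this τ' hτ'
  unfold arcs at he'
  rcases List.mem_append.1 he' with he' | he'
  · simp only [List.mem_flatMap, List.mem_range, List.mem_cons, List.not_mem_nil, or_false] at he'
    obtain ⟨o, ho, i, hi, j, hj, h⟩ := he'
    rcases h with h | h | h <;> subst h
    · exact cov_ring ho hi hj
    · exact (cov_vert ho hi hj).1
    · exact (cov_vert ho hi hj).2
  · simp only [List.mem_flatMap, List.mem_range, List.mem_map] at he'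
    obtain ⟨c, hc, q, hq, h⟩ := he'
    subst h
    exact cov_hex hc hq

end Pool.Agent.W503.CP
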