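import Pool.Agent.W982.CP.Geo

set_option autoImplicit false

/-! # CP-WEDGE: wedge lemma, sublists, criterion for convex position -/

namespace Pool.Agent.W503.CP

open Pool.Agent.W982.CP Set

lemma toR_inj {p q : ℚ × ℚ} (h : toR p = toR q) : p = q := by
  unfold toR at h
  have h1 := congrArg Prod.fst h
  have h2 := congrArg Prod.snd h
  simp only [Rat.cast_inj] at h1 h2
  exact Prod.ext h1 h2

lemma bary {C : Set (ℝ × ℝ)} (hC : Convex ℝ C) {u v w z : ℝ × ℝ} (hu : u ∈ C) (hw : w ∈ C)
    (hz : z ∈ C) (hv : v ∈ C.extremePoints ℝ) (a b c : ℝ) (ha : 0 < a) (hb : 0 < b) (hc : 0 < c)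
    (h1 : a * u.1 + b * w.1 + c * z.1 = (a + b + c) * v.1)
    (h2 : a * u.2 + b * w.2 + c * z.2 = (a + b + c) * v.2) : u = v := by
  have hs : 0 < a + b + c := by positivity
  have hbc : 0 < b + c := by positivity
  have hp : (b / (b + c)) • w + (c / (b + c)) • z ∈ C :=
    hC hw hz (by positivity) (by positivity) (by field_simp)
  have hseg : v ∈ openSegment ℝ u ((b / (b + c)) • w + (c / (b + c)) • z) := by
    refine ⟨a / (a + b + c), (b + c) / (a + b + c), by positivity, by positivity,
      by field_simp; ring, ?_⟩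
    ext
    · simp only [Prod.fst_add, Prod.smul_fst, smul_eq_mul]
      field_simp
      linarith
    · simp only [Prod.snd_add, Prod.smul_snd, smul_eq_mul]
      field_simp
      linarith
  exact ((mem_extremePoints.1 hv).2 u hu _ hp hseg).1

theorem t_WEDGE : S_WEDGE := by
  intro T hT u hu v hv w hw z hz
  have hC : Convex ℝ (convexHull ℝ {x | ∃ q ∈ T, toR q = x}) := convex_convexHull ℝ _
  have mem : ∀ p ∈ T, toR p ∈ convexHull ℝ {x | ∃ q ∈ T, toR q = x} :=
    fun p hp => subset_convexHull ℝ _ ⟨p, hp, rfl⟩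
  have huv : u = v → orient u v w = 0 := by
    intro h; subst h; simp [orient]
  constructor
  · intro h1 h2 h3
    have h1' : (0 : ℝ) < ((orient u v w : ℚ) : ℝ) := by exact_mod_cast h1
    have h2' : ((orient u v z : ℚ) : ℝ) < 0 := by exact_mod_cast h2
    have h3' : ((orient v w z : ℚ) : ℝ) < 0 := by exact_mod_cast h3
    have := bary hC (mem u hu) (mem w hw) (mem z hz) (hT v hv)
      (-((orient v w z : ℚ) : ℝ)) (-((orient u v z : ℚ) : ℝ)) ((orient u v w : ℚ) : ℝ)
      (by linarith) (by linarith) h1'
      (by simp only [orient, toR]; push_cast; ring) (by simp only [orient, toR]; push_cast; ring)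
    have := huv (toR_inj this)
    linarith
  · intro h1 h2 h3
    have h1' : ((orient u v w : ℚ) : ℝ) < 0 := by exact_mod_cast h1
    have h2' : (0 : ℝ) < ((orient u v z : ℚ) : ℝ) := by exact_mod_cast h2
    have h3' : (0 : ℝ) < ((orient v w z : ℚ) : ℝ) := by exact_mod_cast h3
    have := bary hC (mem u hu) (mem w hw) (mem z hz) (hT v hv)
      ((orient v w z : ℚ) : ℝ) ((orient u v z : ℚ) : ℝ) (-((orient u v w : ℚ) : ℝ))
      h3' h2' (by linarith)
      (by simp only [orient, toR]; push_cast; ring) (by simp only [orient, toR]; push_cast; ring)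
    have := huv (toR_inj this)
    linarith

theorem t_SUB : S_SUB := by
  intro T T' hT hsub p hp
  have hmono : convexHull ℝ {x | ∃ q ∈ T', toR q = x} ⊆ convexHull ℝ {x | ∃ q ∈ T, toR q = x} :=
    convexHull_mono fun x ⟨q, hq, hx⟩ => ⟨q, hsub q hq, hx⟩
  rw [mem_extremePoints]
  refine ⟨subset_convexHull ℝ _ ⟨p, hp, rfl⟩, fun x hx y hy h => ?_⟩
  exact (mem_extremePoints.1 (hT p (hsub p hp))).2 x (hmono hx) y (hmono hy) h

theorem t_CONV : S_CONV := by
  intro T h p hp
  obtain ⟨a, b, hab⟩ := h p hp
  set l : ℝ × ℝ → ℝ := fun x => (a : ℝ) * x.1 + (b : ℝ) * x.2 with hl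
  have hlin : ∀ (α β : ℝ) (x y : ℝ × ℝ), l (α • x + β • y) = α * l x + β * l y := by
    intro α β x y
    simp only [hl, Prod.fst_add, Prod.snd_add, Prod.smul_fst, Prod.smul_snd, smul_eq_mul]
    ring
  set W : Set (ℝ × ℝ) := {x | l x < l (toR p) ∨ x = toR p} with hW
  have hWle : ∀ x ∈ W, l x ≤ l (toR p) := by
    intro x hx
    rcases hx with hx | hx
    · exact hx.le
    · rw [hx]
  have hWc : Convex ℝ W := by
    intro x hx y hy α β hα hβ hαβ
    rcases hα.eq_or_lt with h0 | hα
    · rw [← h0] at hαβ ⊢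
      have : β = 1 := by linarith
      rw [this, zero_smul, one_smul, zero_add]
      exact hy
    rcases hβ.eq_or_lt with h0 | hβ
    · rw [← h0] at hαβ ⊢
      have : α = 1 := by linarith
      rw [this, zero_smul, one_smul, add_zero]
      exact hx
    have lx := hWle x hx
    have ly := hWle y hy
    rcases hx with hx | hx
    · left
      rw [hlin]
      have e : l (toR p) = α * l (toR p) + β * l (toR p) := by rw [← add_mul, hαβ, one_mul]
      rw [e]
      have h1 := mul_lt_mul_of_pos_left hx hα
      have h2 := mul_le_mul_of_nonneg_left ly hβ.le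
      linarith
    · rcases hy with hy | hy
      · left
        rw [hlin]
        have e : l (toR p) = α * l (toR p) + β * l (toR p) := by rw [← add_mul, hαβ, one_mul]
        rw [e]
        have h1 := mul_lt_mul_of_pos_left hy hβ
        have h2 := mul_le_mul_of_nonneg_left lx hα.le
        linarith
      · right
        rw [hx, hy, ← add_smul, hαβ, one_smul]
  have hsub : convexHull ℝ {x | ∃ q ∈ T, toR q = x} ⊆ W := by
    apply convexHull_min _ hWc
    rintro x ⟨q, hq, rfl⟩
    by_cases hqp : q = p
    · right; rw [hqp]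
    · left
      have := hab q hq hqp
      simp only [hl, toR]
      exact_mod_cast this
  rw [mem_extremePoints]
  refine ⟨subset_convexHull ℝ _ ⟨p, hp, rfl⟩, fun x hx y hy hxy => ?_⟩
  obtain ⟨α, β, hα, hβ, hαβ, he⟩ := hxy
  have lx := hWle x (hsub hx)
  have ly := hWle y (hsub hy)
  have e1 := hlin α β x y
  rw [he] at e1
  have e : l (toR p) = α * l (toR p) + β * l (toR p) := by rw [← add_mul, hαβ, one_mul]
  constructor
  · rcases hsub hx with h1 | h1
    · exfalso
      have h1 := mul_lt_mul_of_pos_left h1 hα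
      have h2 := mul_le_mul_of_nonneg_left ly hβ.le
      linarith
    · exact h1
  · rcases hsub hy with h1 | h1
    · exfalso
      have h1 := mul_lt_mul_of_pos_left h1 hβ
      have h2 := mul_le_mul_of_nonneg_left lx hα.le
      linarith
    · exact h1

end Pool.Agent.W503.CP
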