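import Mathlib
import Pool.Agent.W757.RC.St4
import Pool.Agent.H790R3.RB.THYP
import Pool.Agent.H790R3.RB.TWR
import Pool.Agent.H790R3.RB.TPOLY
import Pool.Agent.H790R3.RB.TGEN

/-! Subtask RQ-GENX (owner of the project: helper757): genericity in the universal family. -/

set_option autoImplicit false

open Topology Filter Metric Set MeasureTheory
open Pool.Agent.H790R3.RB

namespace Pool.Agent.W503.RQ

open Pool.Agent.H790R3.RB.HYP

/-- Subtask RQ-GENX. -/
theorem task_GENX : Pool.Agent.W757.RC.StGENX := by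
  have hWR : StWR := WR
  have hGEN : StGEN := GEN POLY WR
  intro d S v η hND hopen x₁ hx₁ q hq1 hdvd ε hε
  have hd := S.hd
  have hdpos : 1 ≤ 2 * d - 2 := by omega
  obtain ⟨δ, hδ, hop⟩ := hopen x₁ hx₁ ε hε
  obtain ⟨x', hx'δ, hw10, ⟨c, hcinj, hcw⟩, hper⟩ := hGEN d q (v x₁) hd hq1 δ hδ
  obtain ⟨x, hxU, hxε, a, ha, hva⟩ := hop x' hx'δ
  set e : ℂ := η x with he
  have hconj : ∀ p, hF (S.co x) (ML e p) = ML e (hF (v x) p) := fun p => (hND x hxU).2 p
  -- critical points of v x are not periodic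
  have hncv : ∀ p : ℂ × ℂ, p ≠ 0 → wr (v x) p = 0 → cr ((hF (v x))^[q] p) p ≠ 0 := by
    intro p hp hw
    rw [hva, wr_csmul] at hw
    have hw' : wr x' p = 0 := (mul_eq_zero.mp hw).resolve_left (pow_ne_zero _ ha)
    obtain ⟨c', hc', hit⟩ := iter_csmul a ha x' q p
    rw [hva, hit, cr_smul_left]
    exact mul_ne_zero hc' (hper p hp hw')
  have hncx := nc_M hconj hWR hd hncv
  -- the cycle of infinity is noncritical
  have hinf : wr (S.co x) (1, 0) ≠ 0 := by
    intro hw
    obtain ⟨b, hb, hper⟩ := HYP.base_per S x hxU none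
    have hne : (hF (S.co x))^[0] (ch S.b none x 0) ≠ 0 :=
      (S.nd x hxU).iter_ne 0 (ch_ne_zero _ _ _ _)
    exact hncx _ hne hw (per_cr (S.co x) hb hper hdvd 0)
  refine ⟨x, hxU, hxε, hinf, ?_, hncx⟩
  -- the zeros
  have hzero : ∀ i, wr (v x) (c i, 1) = 0 := by
    intro i
    rw [hva, wr_csmul, hcw, Finset.prod_eq_zero (Finset.mem_univ i) (sub_self _), mul_zero,
      mul_zero]
  have hfin : ∀ i, 1 - e * c i ≠ 0 := by
    intro i h0
    have h1 := wr_M hconj hWR hd (c i, 1)
    rw [hzero i, ML_apply] at h1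
    simp only [h0] at h1
    have hci : c i ≠ 0 := by
      intro h2; rw [h2, mul_zero, sub_zero] at h0; exact one_ne_zero h0
    have h3 : ((c i, (0 : ℂ)) : ℂ × ℂ) = c i • ((1 : ℂ), (0 : ℂ)) := by simp
    rw [h3, (hWR d (S.co x) hd).1] at h1
    exact (mul_ne_zero (pow_ne_zero _ hci) hinf) h1
  set c' : Fin (2 * d - 2) → ℂ := fun i => c i / (1 - e * c i) with hc'
  have hc'inj : Function.Injective c' := by
    intro i j hij
    simp only [hc'] at hij
    rw [div_eq_div_iff (hfin i) (hfin j)] at hij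
    apply hcinj
    linear_combination hij
  have hc'zero : ∀ i, wr (S.co x) (c' i, 1) = 0 := by
    intro i
    have h1 : ((c' i, (1 : ℂ)) : ℂ × ℂ) = (1 - e * c i)⁻¹ • ML e (c i, 1) := by
      rw [ML_apply]
      ext
      · simp only [hc', Prod.smul_fst, smul_eq_mul]; rw [div_eq_mul_inv, mul_comm]
      · simp only [Prod.smul_snd, smul_eq_mul]; rw [inv_mul_cancel₀ (hfin i)]
    rw [h1, (hWR d (S.co x) hd).1, wr_M hconj hWR hd, hzero i, mul_zero]
  refine ⟨c', hc'inj, ?_⟩
  obtain ⟨W, hWdeg, hWev, hWtop⟩ := (hWR d (S.co x) hd).2.1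
  set Q : Polynomial ℂ := Polynomial.C (wr (S.co x) (1, 0)) *
    ∏ i, (Polynomial.X - Polynomial.C (c' i)) with hQ
  have hprodm : (∏ i, (Polynomial.X - Polynomial.C (c' i))).Monic :=
    Polynomial.monic_prod_of_monic _ _ fun i _ => Polynomial.monic_X_sub_C _
  have hproddeg : (∏ i, (Polynomial.X - Polynomial.C (c' i))).natDegree = 2 * d - 2 := by
    rw [Polynomial.natDegree_prod_of_monic _ _ fun i _ => Polynomial.monic_X_sub_C _]
    simp
  have hQdeg : Q.natDegree ≤ 2 * d - 2 := by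
    refine (Polynomial.natDegree_C_mul_le _ _).trans hproddeg.le
  have hQtop : Q.coeff (2 * d - 2) = wr (S.co x) (1, 0) := by
    rw [hQ, Polynomial.coeff_C_mul]
    have h0 := hprodm.coeff_natDegree
    rw [hproddeg] at h0
    rw [h0, mul_one]
  have hQev : ∀ ζ, Q.eval ζ = wr (S.co x) (1, 0) * ∏ i, (ζ - c' i) := by
    intro ζ
    rw [hQ, Polynomial.eval_mul, Polynomial.eval_C, Polynomial.eval_prod]
    simp
  have hD : W - Q = 0 := by
    apply Polynomial.eq_zero_of_natDegree_lt_card_of_eval_eq_zero (W - Q) hc'inj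
    · intro i
      rw [Polynomial.eval_sub, hWev, hc'zero, hQev,
        Finset.prod_eq_zero (Finset.mem_univ i) (sub_self _), mul_zero, sub_zero]
    · rw [Fintype.card_fin]
      have h1 : (W - Q).natDegree ≤ 2 * d - 2 :=
        (Polynomial.natDegree_sub_le _ _).trans (max_le hWdeg hQdeg)
      rcases lt_or_eq_of_le h1 with h2 | h2
      · exact h2
      · exfalso
        have h3 : (W - Q).coeff (2 * d - 2) = 0 := by
          rw [Polynomial.coeff_sub, hWtop, hQtop, sub_self]
        rw [← h2] at h3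
        have h4 : W - Q = 0 := Polynomial.leadingCoeff_eq_zero.mp h3
        rw [h4, Polynomial.natDegree_zero] at h2
        omega
  intro ζ
  rw [← hWev, ← hQev, sub_eq_zero.mp hD]

end Pool.Agent.W503.RQ
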