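import Mathlib
import Pool.Agent.W757.RC.St4
import Pool.Agent.H790R3.RB.THYP
import Pool.Agent.H790R3.RB.TWR

/-! Subtask RQ-LNE (owner of the project: helper757): cycles without critical points have nonzero
multipliers, for the systems of the project RC. -/

set_option autoImplicit false

open Topology Filter Metric Set MeasureTheory
open Pool.Agent.H790R3.RB

namespace Pool.Agent.W503.RQ


open Pool.Agent.H790R3.RB.HYP

theorem base_perX {d n s : ℕ} (S : Pool.Agent.W757.RC.Sys d n s) (x : Fin n → ℂ) (hx : x ∈ S.U) (k : Option (Fin s)) :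
    ∃ a : ℂ, a ≠ 0 ∧ (hF (S.co x))^[S.per k] (ch S.b k x 0) = a • ch S.b k x 0 := by
  obtain ⟨a, z', ha, hz', h⟩ := S.contr x hx k 0 (by simpa using S.hr₀ k)
  rw [norm_zero, mul_zero] at hz'
  have : z' = 0 := norm_le_zero_iff.mp hz'
  rw [this] at h
  exact ⟨a, ha, h⟩

/-- noncritical cycles have nonzero multiplier -/
theorem lam_neX {d n s : ℕ} (S : Pool.Agent.W757.RC.Sys d n s) (hWR : StWR) (x : Fin n → ℂ) (hx : x ∈ S.U)
    (k : Option (Fin s))
    (hnc : ∀ j, wr (S.co x) ((hF (S.co x))^[j] (ch S.b k x 0)) ≠ 0) : S.lam k x ≠ 0 := by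
  obtain ⟨a, ha, hv⟩ := base_perX S x hx k
  set P : ℂ × ℂ := ch S.b k x 0 with hP
  set G : ℂ × ℂ → ℂ × ℂ := fun q => (hF (S.co x))^[S.per k] q with hG
  have hGP : G P = a • P := hv
  have hGd : DifferentiableAt ℂ G P := iter_diff (S.co x) (S.per k) P
  have hprod : (∏ m ∈ Finset.range (S.per k), wr (S.co x) ((hF (S.co x))^[m] P)) ≠ 0 :=
    Finset.prod_ne_zero_iff.mpr fun m _ => hnc m
  have hE : fderiv ℂ G P P = ((d ^ (S.per k) : ℕ) : ℂ) • (a • P) := by
    rw [← hGP]; exact euler (S.co x) (S.per k) P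
  have hd0 : ((d ^ (S.per k) : ℕ) : ℂ) ≠ 0 := by
    have := S.hd
    exact Nat.cast_ne_zero.2 (pow_ne_zero _ (by omega))
  -- direction of the chart
  have key : ∀ u : ℂ × ℂ, cr P u ≠ 0 → cr P (fderiv ℂ G P u) ≠ 0 := by
    intro u hu hzero
    have h1 := iter_cr hWR S.hd (S.co x) (S.per k) P P u
    have h2 : cr (fderiv ℂ G P P) (fderiv ℂ G P u) = 0 := by
      rw [hE, cr_smul_left, cr_smul_left, hzero, mul_zero, mul_zero]
    exact (mul_ne_zero hprod hu) (h1.symm.trans h2)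
  cases k with
  | none =>
    have hPe : P = ((1 : ℂ), (0 : ℂ)) := rfl
    have hu := key (0, 1) (by rw [hPe]; simp [cr])
    have h1 : HasDerivAt (fun z : ℂ => ((1 : ℂ), z)) ((0 : ℂ), (1 : ℂ)) 0 :=
      (hasDerivAt_const (0 : ℂ) (1 : ℂ)).prodMk (hasDerivAt_id (0 : ℂ))
    have h2 : HasFDerivAt G (fderiv ℂ G P) ((fun z : ℂ => ((1 : ℂ), z)) 0) := hGd.hasFDerivAt
    have h3 : HasDerivAt (fun z : ℂ => G (1, z)) (fderiv ℂ G P (0, 1)) 0 :=
      h2.comp_hasDerivAt (0 : ℂ) h1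
    have h4 : HasDerivAt (fun z : ℂ => (G (1, z)).1) (fderiv ℂ G P (0, 1)).1 0 :=
      (ContinuousLinearMap.fst ℂ ℂ ℂ).hasFDerivAt.comp_hasDerivAt (0 : ℂ) h3
    have h5 : HasDerivAt (fun z : ℂ => (G (1, z)).2) (fderiv ℂ G P (0, 1)).2 0 :=
      (ContinuousLinearMap.snd ℂ ℂ ℂ).hasFDerivAt.comp_hasDerivAt (0 : ℂ) h3
    have hv' : G (1, 0) = (a, 0) := by
      have : G (1, 0) = a • ((1 : ℂ), (0 : ℂ)) := hGP
      rw [this]; simp
    have h6 := h5.fun_div h4 (by rw [hv']; exact ha)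
    have e1 : S.hk none x = fun z : ℂ => (G (1, z)).2 / (G (1, z)).1 := rfl
    unfold Pool.Agent.W757.RC.Sys.lam
    rw [e1, h6.deriv, hv']
    have hP1 : P.1 = 1 := by rw [hPe]
    have hP2 : P.2 = 0 := by rw [hPe]
    unfold cr at hu
    rw [hP1, hP2] at hu
    simp only [one_mul, zero_mul, sub_zero] at hu
    simp only [zero_mul, sub_zero]
    exact div_ne_zero (mul_ne_zero hu ha) (pow_ne_zero _ ha)
  | some k =>
    have hPe : P = (S.b k x, (1 : ℂ)) := by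
      rw [hP]; simp [ch]
    have hu := key (1, 0) (by rw [hPe]; simp [cr])
    have h1 : HasDerivAt (fun z : ℂ => (S.b k x + z, (1 : ℂ))) ((1 : ℂ), (0 : ℂ)) 0 :=
      ((hasDerivAt_id (0 : ℂ)).const_add (S.b k x)).prodMk (hasDerivAt_const (0 : ℂ) (1 : ℂ))
    have h2 : HasFDerivAt G (fderiv ℂ G P) ((fun z : ℂ => (S.b k x + z, (1 : ℂ))) 0) :=
      hGd.hasFDerivAt
    have h3 : HasDerivAt (fun z : ℂ => G (S.b k x + z, 1)) (fderiv ℂ G P (1, 0)) 0 :=
      h2.comp_hasDerivAt (0 : ℂ) h1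
    have h4 : HasDerivAt (fun z : ℂ => (G (S.b k x + z, 1)).1) (fderiv ℂ G P (1, 0)).1 0 :=
      (ContinuousLinearMap.fst ℂ ℂ ℂ).hasFDerivAt.comp_hasDerivAt (0 : ℂ) h3
    have h5 : HasDerivAt (fun z : ℂ => (G (S.b k x + z, 1)).2) (fderiv ℂ G P (1, 0)).2 0 :=
      (ContinuousLinearMap.snd ℂ ℂ ℂ).hasFDerivAt.comp_hasDerivAt (0 : ℂ) h3
    have hv' : G (S.b k x + 0, 1) = (a * S.b k x, a) := by
      have : G (S.b k x + 0, 1) = a • P := hGP
      rw [this, hPe]; simp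
    have h6 := (h4.fun_div h5 (by rw [hv']; exact ha)).sub_const (S.b k x)
    have e1 : S.hk (some k) x = fun z : ℂ => (G (S.b k x + z, 1)).1 / (G (S.b k x + z, 1)).2
        - S.b k x := rfl
    unfold Pool.Agent.W757.RC.Sys.lam
    rw [e1, h6.deriv, hv']
    have hP1 : P.1 = S.b k x := by rw [hPe]
    have hP2 : P.2 = 1 := by rw [hPe]
    unfold cr at hu
    rw [hP1, hP2] at hu
    refine div_ne_zero ?_ (pow_ne_zero _ ha)
    intro h0
    have h7 : a * ((fderiv ℂ G P (1, 0)).1 - S.b k x * (fderiv ℂ G P (1, 0)).2) = 0 := by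
      linear_combination h0
    rcases mul_eq_zero.mp h7 with h8 | h8
    · exact ha h8
    · apply hu
      linear_combination -h8

/-- Subtask RQ-LNE. -/
theorem task_LNE : Pool.Agent.W757.RC.StLNE := by
  intro d n s S q x hx hdvd _hq hnc k
  refine lam_neX S WR x hx k fun j hw => ?_
  obtain ⟨b, hb, hper⟩ := base_perX S x hx k
  have hne : (hF (S.co x))^[j] (ch S.b k x 0) ≠ 0 :=
    (S.nd x hx).iter_ne j (ch_ne_zero _ _ _ _)
  exact hnc _ hne hw (per_cr (S.co x) hb hper (hdvd k) j)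

end Pool.Agent.W503.RQ
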