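import Mathlib
import Pool.Agent.W757.RC.St4
import Pool.Agent.H790R3.RB.Main

/-! Subtask RQ-SMK (owner of the project: helper757): all attracting cycles can be marked. -/

set_option autoImplicit false

open Topology Filter Metric Set MeasureTheory
open Pool.Agent.H790R3.RB
open scoped OnePoint

namespace Pool.Agent.W503.RQ

/-- the disc of the cycle `k`, as a subset of the sphere, is a neighbourhood of the base point -/
theorem inC_nhdsX {d n s : ℕ} (S : Pool.Agent.W757.RC.Sys d n s) (x : Fin n → ℂ) (β : Fin s → ℂ)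
    (hβ : ∀ k, S.b k x = β k) (k : Option (Fin s)) :
    {z : OnePoint ℂ | S.InC k x (hc z)} ∈ 𝓝 (INF.pt β k) := by
  have hr := S.hr₀ k
  cases k with
  | none =>
    have h1 : (((↑) : ℂ → OnePoint ℂ) '' (closedBall (0 : ℂ) (1 / S.r₀ none)))ᶜ ∈
        𝓝 (∞ : OnePoint ℂ) := by
      apply OnePoint.isOpen_compl_image_coe.mpr ⟨isClosed_closedBall, isCompact_closedBall _ _⟩ |>.mem_nhds
      exact OnePoint.infty_notMem_image_coe
    refine mem_of_superset h1 ?_
    intro z hz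
    rw [mem_ofPred_eq]
    induction z using OnePoint.rec with
    | infty =>
      refine ⟨1, 0, one_ne_zero, by simpa using hr, ?_⟩
      show ((1, 0) : ℂ × ℂ) = (1 : ℂ) • ((1, 0) : ℂ × ℂ)
      simp
    | coe z =>
      have hz' : 1 / S.r₀ none < ‖z‖ := by
        by_contra hle
        push Not at hle
        exact hz ⟨z, by simpa using hle, rfl⟩
      have hz0 : z ≠ 0 := by
        intro h0
        rw [h0, norm_zero] at hz'
        have : 0 < 1 / S.r₀ none := by positivity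
        linarith
      refine ⟨z, z⁻¹, hz0, ?_, ?_⟩
      · rw [norm_inv]
        rw [inv_lt_comm₀ (norm_pos_iff.mpr hz0) hr]
        simpa using hz'
      · show ((z, 1) : ℂ × ℂ) = z • ((1, z⁻¹) : ℂ × ℂ)
        ext <;> simp [hz0]
  | some k =>
    have h1 : ((↑) : ℂ → OnePoint ℂ) '' (ball (β k) (S.r₀ (some k))) ∈
        𝓝 ((β k : ℂ) : OnePoint ℂ) := by
      apply (OnePoint.isOpen_image_coe.mpr isOpen_ball).mem_nhds
      exact ⟨β k, mem_ball_self hr, rfl⟩
    refine mem_of_superset h1 ?_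
    rintro _ ⟨z, hz, rfl⟩
    rw [mem_ofPred_eq]
    refine ⟨1, z - β k, one_ne_zero, by simpa [dist_eq_norm] using hz, ?_⟩
    show ((z, 1) : ℂ × ℂ) = (1 : ℂ) • ((S.b k x + (z - β k), 1) : ℂ × ℂ)
    rw [hβ k]
    ext <;> simp

/-- iterates of the contraction at infinity -/
theorem iter_contr {d n : ℕ} (S₀ : Pool.Agent.W757.RC.BS d n) (x : Fin n → ℂ) (hx : x ∈ S₀.U)
    (z : ℂ) (hz : ‖z‖ < S₀.r₀) (j : ℕ) : ∃ a z' : ℂ, a ≠ 0 ∧ ‖z'‖ ≤ S₀.θ ^ j * ‖z‖ ∧
      (hF (S₀.co x))^[S₀.per none * j] (ch S₀.b none x z) = a • ch S₀.b none x z' := by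
  induction j with
  | zero => exact ⟨1, z, one_ne_zero, by simp, by simp⟩
  | succ j ih =>
    obtain ⟨a, z', ha, hz', h⟩ := ih
    have hz'r : ‖z'‖ < S₀.r₀ := by
      refine lt_of_le_of_lt (hz'.trans ?_) hz
      exact mul_le_of_le_one_left (norm_nonneg _) (pow_le_one₀ S₀.hθ0 S₀.hθ.le)
    obtain ⟨a', z'', ha', hz'', h'⟩ := S₀.contr x hx none z' hz'r
    refine ⟨a ^ (d ^ (S₀.per none)) * a', z'', mul_ne_zero (pow_ne_zero _ ha) ha', ?_, ?_⟩
    · refine hz''.trans ?_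
      rw [pow_succ, mul_comm (S₀.θ ^ j), mul_assoc]
      exact mul_le_mul_of_nonneg_left hz' S₀.hθ0
    · rw [mul_add, mul_one, add_comm, Function.iterate_add_apply, h, hF_iter_smul, h', smul_smul]

/-- infinity is a sink of the base family -/
theorem sink_inf {d n : ℕ} (S₀ : Pool.Agent.W757.RC.BS d n) (x : Fin n → ℂ) (hx : x ∈ S₀.U) :
    Sink (sp (S₀.co x)) (S₀.per none) ∞ := by
  have hnd : ND (S₀.co x) := S₀.nd x hx
  have hd := S₀.hd
  obtain ⟨hfc, hit, hcr, hhc, hprc⟩ := SP d (S₀.co x) (by omega) hnd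
  have hpr0 : pr ((1 : ℂ), (0 : ℂ)) = ∞ := by simp [pr]
  have hne0 : ((1 : ℂ), (0 : ℂ)) ≠ 0 := by
    intro h; have := congrArg Prod.fst h; simp at this
  refine ⟨S₀.hper none, ?_, ?_⟩
  · obtain ⟨a, z', ha, hz', h⟩ := S₀.contr x hx none 0 (by simpa using S₀.hr₀)
    rw [norm_zero, mul_zero] at hz'
    have hz0 : z' = 0 := norm_le_zero_iff.mp hz'
    rw [hz0] at h
    have h' : (hF (S₀.co x))^[S₀.per none] (1, 0) = a • ((1 : ℂ), (0 : ℂ)) := h
    rw [← hpr0, hit _ hne0, h', hcr _ _ (smul_ne_zero ha hne0) hne0]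
    simp [cr]
  · have hU := INF.inC_nhds S₀ x (Fin.elim0 : Fin 0 → ℂ) (fun k => k.elim0) none
    refine ⟨_, hU, ?_⟩
    intro V hV
    -- continuity of the chart at infinity
    have hcont : ContinuousAt (fun z : ℂ => pr ((1 : ℂ), z)) 0 := by
      have h1 : ContinuousAt pr ((1 : ℂ), (0 : ℂ)) := by
        apply hprc.continuousAt
        exact (isOpen_ne.mem_nhds hne0)
      have h2 : ContinuousAt (fun z : ℂ => ((1 : ℂ), z)) 0 := by fun_prop
      exact ContinuousAt.comp (f := fun z : ℂ => ((1 : ℂ), z)) h1 h2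
    have hV' : (fun z : ℂ => pr ((1 : ℂ), z)) ⁻¹' V ∈ 𝓝 (0 : ℂ) := by
      apply hcont.preimage_mem_nhds
      rw [hpr0]; exact hV
    obtain ⟨δ, hδ, hball⟩ := Metric.mem_nhds_iff.mp hV'
    have hlim : Tendsto (fun j : ℕ => S₀.θ ^ j * S₀.r₀) atTop (𝓝 0) := by
      have := (tendsto_pow_atTop_nhds_zero_of_lt_one S₀.hθ0 S₀.hθ).mul_const S₀.r₀
      simpa using this
    filter_upwards [hlim.eventually (gt_mem_nhds hδ)] with j hj w hw
    obtain ⟨c, z, hc0, hz, hw'⟩ := hw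
    obtain ⟨a, z', ha, hz', h⟩ := iter_contr S₀ x hx z hz j
    obtain ⟨hw1, hw2⟩ := hhc w
    have h1 : (sp (S₀.co x))^[S₀.per none * j] w = pr ((1 : ℂ), z') := by
      conv_lhs => rw [← hw1]
      rw [hit _ hw2, hw']
      show pr ((hF (S₀.co x))^[S₀.per none * j] (c • ch S₀.b none x z)) = _
      rw [hF_iter_smul, h, smul_smul]
      have hne1 : ((1 : ℂ), z') ≠ 0 := by
        intro h; have := congrArg Prod.fst h; simp at this
      have h2 : (ch S₀.b none x z') = ((1 : ℂ), z') := rfl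
      rw [h2, hcr _ _ (smul_ne_zero (mul_ne_zero (pow_ne_zero _ hc0) ha) hne1) hne1]
      rw [cr_smul_left, cr_self, mul_zero]
    rw [h1]
    apply hball
    rw [mem_ball_zero_iff]
    refine lt_of_le_of_lt hz' (lt_of_le_of_lt ?_ hj)
    exact mul_le_mul_of_nonneg_left hz.le (pow_nonneg S₀.hθ0 _)

/-- Subtask RQ-SMK. -/
theorem task_SMK : Pool.Agent.W757.RC.StSMK := by
  intro d n S₀ x hx
  have hnd : ND (S₀.co x) := S₀.nd x hx
  have hd := S₀.hd
  obtain ⟨hfc, hit, hcr, hhc, hprc⟩ := SP d (S₀.co x) (by omega) hnd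
  have hinf := sink_inf S₀ x hx
  -- a maximal family of sinks
  have hP0 : ∃ β : Fin 0 → ℂ, INF.Good (sp (S₀.co x)) 0 β := by
    refine ⟨Fin.elim0, ?_, ?_⟩
    · intro k
      cases k with
      | none => exact INF.sink_min hfc hinf
      | some k => exact k.elim0
    · intro k k' m _
      exact Subsingleton.elim _ _
  have hbd : ∀ s : ℕ, (∃ β : Fin s → ℂ, INF.Good (sp (S₀.co x)) s β) → s ≤ 2 * d - 2 := by
    rintro s ⟨β, hβ⟩
    obtain ⟨-, -, -, -, -, -, -, -, -, -, -, hs⟩ :=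
      INF.family t_FAM t_HYP t_NUM (MUL SP) SP hd hnd hβ
    exact hs
  obtain ⟨s, ⟨β, hG⟩, hmax⟩ : ∃ s : ℕ, (∃ β : Fin s → ℂ, INF.Good (sp (S₀.co x)) s β) ∧
      ∀ β' : Fin (s + 1) → ℂ, ¬ INF.Good (sp (S₀.co x)) (s + 1) β' := by
    classical
    by_contra hno
    push Not at hno
    have hall : ∀ s : ℕ, ∃ β : Fin s → ℂ, INF.Good (sp (S₀.co x)) s β := by
      intro s
      induction s with
      | zero => exact hP0
      | succ s ih => exact hno s ih
    have := hbd (2 * d - 2 + 1) (hall _)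
    omega
  have hch0 : ∀ k, ch (Pool.Agent.W757.RC.mp β) k () 0 ≠ 0 := fun k => ch_ne_zero _ _ _ _
  have hprch : ∀ k, pr (ch (Pool.Agent.W757.RC.mp β) k () 0) = INF.pt β k :=
    fun k => INF.pr_ch β k
  have key : ∀ (k k' : Option (Fin s)) (m : ℕ),
      cr ((hF (S₀.co x))^[m] (ch (Pool.Agent.W757.RC.mp β) k () 0))
        (ch (Pool.Agent.W757.RC.mp β) k' () 0) = 0 ↔
        (sp (S₀.co x))^[m] (INF.pt β k) = INF.pt β k' := by
    intro k k' m
    rw [← hcr _ _ (hnd.iter_ne m (hch0 k)) (hch0 k'), ← hit _ (hch0 k), hprch, hprch]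
  refine ⟨s, fun k => Function.minimalPeriod (sp (S₀.co x)) (INF.pt β k), β, ?_, ?_⟩
  · refine ⟨hx, ?_, fun k => (hG.1 k).1, fun k => (key k k _).mpr (hG.1 k).2.1, ?_, ?_⟩
    · -- the period of infinity
      apply Nat.dvd_antisymm
      · exact Function.IsPeriodicPt.minimalPeriod_dvd hinf.2.1
      · have h1 := (key none none _).mpr (hG.1 none).2.1
        have hne : (hF (S₀.co x))^[Function.minimalPeriod (sp (S₀.co x)) (INF.pt β none)]
            (ch (Pool.Agent.W757.RC.mp β) none () 0) ≠ 0 := hnd.iter_ne _ (hch0 none)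
        obtain ⟨a, -, ha⟩ := (cr_eq_zero_iff hne (hch0 none)).mp h1
        have h2 : (hF (S₀.co x))^[Function.minimalPeriod (sp (S₀.co x)) (INF.pt β none)]
            (ch S₀.b none x 0) = a • ch S₀.b none x 0 := ha
        exact (S₀.sep x hx none none 0 0 a _ (by simpa using S₀.hr₀) (by simpa using S₀.hr₀) h2).2
    · intro k
      have h := hG.1 k
      exact MUL SP d (S₀.co x) (Function.minimalPeriod (sp (S₀.co x)) (INF.pt β k)) s
        (Pool.Agent.W757.RC.mp β) k hd hnd (by rw [hprch]; exact h)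
    · intro k k' m hm
      have h1 := (key k k' m).mp hm
      have h2 := hG.2 k k' m h1
      subst h2
      exact ⟨rfl, Function.IsPeriodicPt.minimalPeriod_dvd h1⟩
  · intro S q hext _hper hq hxq hb ζ hζ
    rw [mem_ofPred_eq]
    rintro ⟨n', a, hsink, hta⟩
    obtain ⟨k, m, hkm⟩ := INF.extend hfc hG hmax hsink
    have h1 : Tendsto (fun j : ℕ => (sp (S₀.co x))^[m] ((sp (S₀.co x))^[n' * j] (ζ : OnePoint ℂ)))
        atTop (𝓝 (INF.pt β k)) := by
      rw [← hkm]
      exact ((hfc.iterate m).tendsto a).comp hta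
    obtain ⟨j, hj⟩ := (h1.eventually (inC_nhdsX S q β hb k)).exists
    rw [← Function.iterate_add_apply] at hj
    have hζ1 : ((ζ, 1) : ℂ × ℂ) ≠ 0 := by
      intro h; have := congrArg Prod.snd h; simp at this
    have hpr : pr ((ζ, 1) : ℂ × ℂ) = (ζ : OnePoint ℂ) := by simp [pr]
    rw [← hpr, hit _ hζ1] at hj
    set M := m + n' * j with hM
    have hFne : (hF (S₀.co x))^[M] (ζ, 1) ≠ 0 := hnd.iter_ne M hζ1
    obtain ⟨h2, h3⟩ := hhc (pr ((hF (S₀.co x))^[M] (ζ, 1)))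
    have h4 : cr ((hF (S₀.co x))^[M] (ζ, 1)) (hc (pr ((hF (S₀.co x))^[M] (ζ, 1)))) = 0 :=
      (hcr _ _ hFne h3).mp h2.symm
    obtain ⟨a', ha', h5⟩ := (cr_eq_zero_iff hFne h3).mp h4
    obtain ⟨c, z, hc0, hz, h6⟩ := hj
    apply hζ k M
    refine ⟨a' * c, z, mul_ne_zero ha' hc0, hz, ?_⟩
    show (hF (S.co q))^[M] (ζ, 1) = _
    rw [hext.co q hq, hxq, h5, h6, smul_smul]

end Pool.Agent.W503.RQ
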