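import Mathlib
import Pool.Agent.W757.RC.St4

/-! Subtask RQ-START (owner of the project: helper757): good configurations near a map with small
non-attracted area. -/

set_option autoImplicit false

open Topology Filter Metric Set MeasureTheory
open Pool.Agent.H790R3.RB
open scoped OnePoint

namespace Pool.Agent.W503.RQ

open Pool.Agent.W757 in
/-- Subtask RQ-START. -/
theorem task_START (hSMK : RC.StSMK) (hMARK : RC.StMARK) (hUSC : RC.StUSC) (hLNE : RC.StLNE)
    (hEMIN : RC.StEMIN) (_hLAM : RC.StLAM) (hKOE : RC.StKOE) : RC.StSTART := by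
  intro d n l S₀ e hH x₁ hx₁ ε hε
  obtain ⟨s, per, β, hMk, hKS⟩ := hSMK d n S₀ x₁ hx₁
  obtain ⟨S, q₀, hExt, -, hper, hq₀U, hxp, hbp, hb, -⟩ := hMARK d n S₀ (dist x₁ S₀.xT)
    (mem_ball.mp hx₁) x₁ (mem_closedBall.2 le_rfl) s per β hMk
  obtain ⟨σ, N₀, hσ, hUSC'⟩ := hUSC d (n + s) s S q₀ hq₀U ε hε
  obtain ⟨σ', hσ', hballU⟩ := Metric.isOpen_iff.mp S.hU q₀ hq₀U
  have hq1 : 1 ≤ ∏ k : Option (Fin s), S.per k := Finset.one_le_prod' fun k _ => S.hper k
  have hdvd : ∀ k, S.per k ∣ ∏ k : Option (Fin s), S.per k :=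
    fun k => Finset.dvd_prod_of_mem S.per (Finset.mem_univ k)
  have hε' : 0 < min ε (min σ σ') := lt_min hε (lt_min hσ hσ')
  obtain ⟨x₂, hx₂U, hx₂, hw, ⟨c, hc, hfac⟩, hncr⟩ := hH.gen x₁ hx₁ _ hq1
    (by rw [← hExt.pn]; exact hdvd none) _ hε'
  set q₂ : Fin (n + s) → ℂ := Fin.append x₂ β with hq₂
  have hxp₂ : RC.xp q₂ = x₂ := by
    funext i
    simp [RC.xp, hq₂]
  have hd₂ : ‖q₂ - q₀‖ < min ε (min σ σ') := by
    rw [pi_norm_lt_iff hε']
    intro i
    rw [Pi.sub_apply]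
    refine Fin.addCases (fun i => ?_) (fun k => ?_) i
    · have h1 : q₂ (Fin.castAdd s i) = x₂ i := by simp [hq₂]
      have h2 : q₀ (Fin.castAdd s i) = x₁ i := congrFun hxp i
      rw [h1, h2]
      exact lt_of_le_of_lt (norm_le_pi_norm (x₂ - x₁) i) hx₂
    · have h1 : q₂ (Fin.natAdd n k) = β k := by simp [hq₂]
      have h2 : q₀ (Fin.natAdd n k) = β k := hbp k
      rw [h1, h2, sub_self, norm_zero]
      exact hε'
  have hq₂U : q₂ ∈ S.U := by
    apply hballU
    rw [mem_ball, dist_eq_norm]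
    exact hd₂.trans_le ((min_le_right _ _).trans (min_le_right _ _))
  have hco : S.co q₂ = S₀.co x₂ := by rw [hExt.co q₂ hq₂U, hxp₂]
  have hlam : ∀ k, S.lam k q₂ ≠ 0 :=
    hLNE d (n + s) s S _ q₂ hq₂U hdvd hq1 (by rw [hco]; exact hncr)
  obtain ⟨KK, hKK⟩ := hKOE d (n + s) s S
  let y : Ix d (n + s) s → ℂ := Sum.elim q₂ (Sum.elim c (fun _ => 1))
  have hyx : yx y = q₂ := rfl
  have hyc : yc y = c := rfl
  have hyk : ∀ k, yk y k ≠ 0 := by
    intro k
    cases k with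
    | none => exact one_ne_zero
    | some k => exact one_ne_zero
  refine ⟨s, S, KK, y, hExt, hKK, ?_, ?_, ?_⟩
  · rw [hyx, hxp₂]
    exact hx₂.trans_le (min_le_left _ _)
  · rw [hyx]
    have h1 : S.KS q₂ ⊆ {ζ : ℂ | ∀ k, ∀ m ≤ N₀, ¬ S.InC k q₂ ((S.F q₂)^[m] (ζ, 1))} :=
      fun ζ hζ k m _ => hζ k m
    refine (measure_mono h1).trans ((hUSC' q₂ hq₂U ?_).trans ?_)
    · exact hd₂.trans_le ((min_le_right _ _).trans (min_le_left _ _))
    · exact add_le_add (measure_mono (hKS S q₀ hExt hper hq₀U hxp hb)) le_rfl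
  · refine ⟨⟨hq₂U, hlam, hyk, ?_, ?_, ?_⟩, ?_⟩
    · intro j
      unfold RC.Sys.Er
      rw [hyx, hyc, hco, hfac, sub_self]
    · intro i hi; exact absurd hi (Finset.notMem_empty i)
    · intro i hi; exact absurd hi (Finset.notMem_empty i)
    · obtain ⟨col, hcol⟩ := hEMIN d (n + s) s S y hq₂U (by rw [hyx, hco]; exact hw) hc
      refine ⟨Fin.elim0, Sum.elim col Fin.elim0, ?_⟩
      have hM : S.Mx KK (RC.ee S e) ∅ (fun _ => none) (fun _ => 0) (R := 0) Fin.elim0
          (Sum.elim col Fin.elim0) y =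
          (Matrix.of fun j c : Fin (2 * d - 2) =>
            fderiv ℂ (S.Er j) y (Pi.single (col c) 1)).submatrix
            (Equiv.sumEmpty (Fin (2 * d - 2)) (Fin 0)) (Equiv.sumEmpty (Fin (2 * d - 2)) (Fin 0)) := by
        ext a b
        rcases a with a | a
        · rcases b with b | b
          · rfl
          · exact b.elim0
        · exact a.elim0
      rw [hM, Matrix.det_submatrix_equiv_self]
      exact hcol

end Pool.Agent.W503.RQ
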