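import Pool.Agent.W886.RU.Stm1

/-!
# Circuits do not compute many parities
-/

set_option autoImplicit false

namespace Pool.Agent.W503.RUCOMB

open Finset H568R2 Pool.Agent.H676 Pool.Agent.H620R2.Gauge Pool.Agent.W886.RU

theorem sum_ind_nonneg {ι : Type} (X : Finset ι) (P : ι → Prop) [∀ x, Decidable (P x)] :
    0 ≤ ∑ x ∈ X, (if P x then (1 : ℝ) else 0) :=
  Finset.sum_nonneg fun x _ => by split_ifs <;> norm_num

theorem one_le_sum_ind {ι : Type} (X : Finset ι) (P : ι → Prop) [∀ x, Decidable (P x)] {x : ι}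
    (hx : x ∈ X) (h : P x) : 1 ≤ ∑ x ∈ X, (if P x then (1 : ℝ) else 0) := by
  refine le_trans ?_ (Finset.single_le_sum (f := fun x => if P x then (1 : ℝ) else 0)
    (fun x _ => by split_ifs <;> norm_num) hx)
  rw [if_pos h]

open Classical in
theorem task (h : S_SW) : S_COMB := by
  intro I ι _ _ _ t k q ht h0 h1 X C B L r s hC hB hr hs
  have hq0 : 0 ≤ q ^ k := pow_nonneg h0 k
  have hq1 : q ^ k ≤ 1 := pow_le_one₀ h0 (by linarith)
  rw [← Ex_ov (q := q ^ k)]
  have hpt : ∀ ρ : Restr I, Ex unif (fun a : I → Bool =>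
      if ∀ x ∈ X, (C x).val (ov ρ a) = par (B x) (ov ρ a) then (1 : ℝ) else 0) ≤
      ((∑ x ∈ X, (if ¬ DTr t (rs (C x).val ρ) then (1 : ℝ) else 0)) +
        ∑ x ∈ X, (if ((B x).filter (fun i => ρ i = none)).card ≤ r then (1 : ℝ) else 0)) +
        (1 / 2) ^ X.card := by
    intro ρ
    have hle1 : Ex unif (fun a : I → Bool =>
      if ∀ x ∈ X, (C x).val (ov ρ a) = par (B x) (ov ρ a) then (1 : ℝ) else 0) ≤ 1 := by
      calc _ ≤ Ex unif (fun _ : I → Bool => (1 : ℝ)) := by
            apply Ex_mono unif_nonneg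
            intro a
            split_ifs <;> norm_num
        _ = 1 := Ex_const unif_sum 1
    have hs1 := sum_ind_nonneg X (fun x => ¬ DTr t (rs (C x).val ρ))
    have hs2 := sum_ind_nonneg X (fun x => ((B x).filter (fun i => ρ i = none)).card ≤ r)
    have hh0 : (0 : ℝ) ≤ (1 / 2) ^ X.card := by positivity
    by_cases hG : ∀ x ∈ X, DTr t (rs (C x).val ρ)
    · by_cases hst : ∃ x ∈ X, ((B x).filter (fun i => ρ i = none)).card ≤ r
      · obtain ⟨x, hx, hxr⟩ := hst
        have h2 := one_le_sum_ind X (fun x => ((B x).filter (fun i => ρ i = none)).card ≤ r) hx hxr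
        linarith
      · push Not at hst
        have h5 : Ex unif (fun a : I → Bool =>
            if ∀ x ∈ X, (C x).val (ov ρ a) = par (B x) (ov ρ a)
              then (1 : ℝ) else 0) ≤ (1 / 2) ^ X.card := by
          refine xor_bound ρ X B hB (fun x => (C x).val) t ?_ ?_
          · intro x hx
            exact hG x hx
          · intro x hx
            exact lt_of_le_of_lt hr (hst x hx)
        linarith
    · push Not at hG
      obtain ⟨x, hx, hxr⟩ := hG
      have h2 := one_le_sum_ind X (fun x => ¬ DTr t (rs (C x).val ρ)) hx hxr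
      linarith
  refine (Ex_mono (wq_nonneg hq0 hq1) hpt).trans ?_
  rw [Ex_add, Ex_add, Ex_sum, Ex_sum, Ex_const (wq_sum (q ^ k))]
  have h7 : ∀ x ∈ X, Ex (wq (q ^ k)) (fun ρ : Restr I =>
      if ¬ DTr t (rs (C x).val ρ) then (1 : ℝ) else 0) ≤ L * (12 * t * q) ^ (t + 1) := by
    intro x hx
    obtain ⟨c1, c2, c3⟩ := hC x hx
    refine (h I t k q ht h0 h1 (C x) c1 c2).trans ?_
    apply mul_le_mul_of_nonneg_right _ (by positivity)
    exact_mod_cast c3
  have h8 : ∀ x ∈ X, Ex (wq (q ^ k)) (fun ρ : Restr I =>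
      if ((B x).filter (fun i => ρ i = none)).card ≤ r then (1 : ℝ) else 0) ≤
      (r + 1) * (1 - q ^ k) ^ s := fun x hx => few_stars hq0 hq1 (B x) r s (hs x hx)
  have h9 := Finset.sum_le_sum h8
  have h10 := Finset.sum_le_sum h7
  rw [Finset.sum_const, nsmul_eq_mul] at h9 h10
  linarith

end Pool.Agent.W503.RUCOMB
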