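import Pool.Agent.W982.TA.Grid

/-!
# Min-max area triangulations: the signals of a medial family
-/

set_option autoImplicit false

namespace Pool.Agent.W982.TA

open Pool.Agent.NPC

/-- the sign of a cell of a tile -/
def j3S (e : Pt → Pt) (i j x y : ℕ) : ℤ := sg e (64 * (j : ℤ) + (x : ℤ), 62 * (i : ℤ) + (y : ℤ))

theorem j3_f {e : Pt → Pt} {i j x y : ℕ} (h : j3S e i j x y < 0) :
    SgAt e (64 * (j : ℤ) + (x : ℤ), 62 * (i : ℤ) + (y : ℤ)) false := by
  unfold SgAt
  rw [if_neg (by decide)]
  exact h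

theorem j3_t {e : Pt → Pt} {i j x y : ℕ} (h : 0 < j3S e i j x y) :
    SgAt e (64 * (j : ℤ) + (x : ℤ), 62 * (i : ℤ) + (y : ℤ)) true := by
  unfold SgAt
  rw [if_pos rfl]
  exact h

theorem j3_n1 {α : Type} {P : α → Prop} {a : α} (h : ¬ ∀ x ∈ [a], P x) : ¬ P a := by
  intro h1
  apply h
  intro x hx
  rw [List.mem_singleton] at hx
  rw [hx]
  exact h1

theorem j3_n2 {α : Type} {P : α → Prop} {a b : α} (h : ¬ ∀ x ∈ [a, b], P x) (h1 : P a) :
    ¬ P b := by
  intro h2
  apply h
  intro x hx
  simp only [List.mem_cons, List.not_mem_nil, or_false] at hx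
  rcases hx with rfl | rfl
  · exact h1
  · exact h2

theorem j3_n3 {α : Type} {P : α → Prop} {a b c : α} (h : ¬ ∀ x ∈ [a, b, c], P x) (h1 : P a)
    (h2 : P b) : ¬ P c := by
  intro h3
  apply h
  intro x hx
  simp only [List.mem_cons, List.not_mem_nil, or_false] at hx
  rcases hx with rfl | rfl | rfl
  · exact h1
  · exact h2
  · exact h3

theorem j3_n4 {α : Type} {P : α → Prop} {a b c d : α} (h : ¬ ∀ x ∈ [a, b, c, d], P x) (h1 : P a)
    (h2 : P b) (h3 : P c) : ¬ P d := by
  intro h4
  apply h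
  intro x hx
  simp only [List.mem_cons, List.not_mem_nil, or_false] at hx
  rcases hx with rfl | rfl | rfl | rfl
  · exact h1
  · exact h2
  · exact h3
  · exact h4

theorem j3_s1 {a b : ℤ} (h : 0 < a * b) (ha : ¬ 0 < a) : b < 0 := by
  rcases mul_pos_iff.1 h with ⟨h1, _⟩ | ⟨_, h2⟩
  · exact absurd h1 ha
  · exact h2

theorem j3_s2 {a b : ℤ} (h : 0 < a * b) (ha : 0 < a) : 0 < b := by
  rcases mul_pos_iff.1 h with ⟨_, h1⟩ | ⟨h2, _⟩
  · exact h1
  · exact absurd ha (by omega)

theorem j3_s3 {a b : ℤ} (h : 0 < a * b) (hb : 0 < b) : 0 < a := by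
  rw [mul_comm] at h
  exact j3_s2 h hb

theorem j3_s4 {a b : ℤ} (h : 0 < a * b) (ha : ¬ 0 < a) : a < 0 := by
  rcases mul_pos_iff.1 h with ⟨h1, _⟩ | ⟨h2, _⟩
  · exact absurd h1 ha
  · exact h2

theorem j3_s5 {a b : ℤ} (h : 0 < a * b) (hb : ¬ 0 < b) : b < 0 := by
  rw [mul_comm] at h
  exact j3_s4 h hb

theorem j3 (h1 : TaskJ1) (h2 : TaskJ2) : TaskJ3 := by
  intro hP hT φ e hφ hM
  obtain ⟨hH0, hV0⟩ := h1 hP φ e hφ hM
  have hG := h2 hP hT φ e hφ hM
  have hlen : 0 < φ.length := List.length_pos_iff.2 hφ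
  have hH : ∀ i < nR φ, ∀ j, j + 1 < nC φ → ∀ y, hrR (ty φ i j) y = true →
      0 < j3S e i j 63 y * j3S e i (j + 1) 0 y := by
    intro i hi j hj y hy
    have h3 := hH0 i hi j hj y hy
    unfold j3S
    rw [Nat.cast_zero, add_zero]
    exact h3
  have hV : ∀ i, i + 1 < nR φ → ∀ j < nC φ, ∀ x, vcT (ty φ i j) x = true →
      0 < j3S e i j x 61 * j3S e (i + 1) j x 0 := by
    intro i hi j hj x hx
    have h3 := hV0 i hi j hj x hx
    unfold j3S
    rw [Nat.cast_zero, add_zero]
    exact h3
  have hR : nR φ = 6 * φ.length + 2 := rfl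
  have hC : nC φ = φ.length + 1 := rfl
  -- types of the tiles
  have t00 : ty φ 0 0 = 5 := by
    unfold ty
    rw [if_pos rfl, if_pos rfl]
  have t0j : ∀ j, 1 ≤ j → ty φ 0 j = 4 := by
    intro j hj
    unfold ty
    rw [if_neg (by omega), if_pos rfl]
  have tA : ∀ i, i < nR φ - 1 → i % 2 = 1 → ty φ i 0 = 2 := by
    intro i hi hi2
    unfold ty
    rw [if_pos rfl, if_neg (by omega), if_neg (by omega), if_pos hi2]
  have tB : ∀ i, 1 ≤ i → i < nR φ - 1 → i % 2 = 0 → ty φ i 0 = 3 := by
    intro i hi0 hi hi2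
    unfold ty
    rw [if_pos rfl, if_neg (by omega), if_neg (by omega), if_neg (by omega)]
  have tC : ∀ i j, 1 ≤ i → i < nR φ - 1 → 1 ≤ j →
      ty φ i j = if inCl (litRow i) (clOf φ j) = true then 1 else 0 := by
    intro i j hi0 hi hj
    unfold ty
    rw [if_neg (by omega), if_neg (by omega), if_neg (by omega)]
  have tL : ty φ (nR φ - 1) 0 = 7 := by
    unfold ty
    rw [if_pos rfl, if_neg (by omega), if_pos rfl]
  have tF : ∀ j, 1 ≤ j → ty φ (nR φ - 1) j = 6 := by
    intro j hj
    unfold ty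
    rw [if_neg (by omega), if_neg (by omega), if_pos rfl]
  refine ⟨fun i j y => decide (0 < j3S e i j 63 y), fun i j x => decide (0 < j3S e i j x 61),
    ?_, ?_, ?_, ?_, ?_, ?_, ?_⟩
  · -- bl
    have hg := (hG 0 (by omega) 0 (by omega)).1
    rw [t00] at hg
    constructor
    · rw [decide_eq_false_iff_not]
      intro h3
      exact j3_n1 (hg [(1, (4, 61), true)] (by simp [tile, tileBL, goalsBL])) (j3_t h3)
    · rw [decide_eq_false_iff_not]
      intro h3
      exact j3_n1 (hg [(2, (63, 41), true)] (by simp [tile, tileBL, goalsBL])) (j3_t h3)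
  · -- bf
    intro j hj1 hj h3
    rw [decide_eq_false_iff_not] at h3
    obtain ⟨j, rfl⟩ : ∃ j', j = j' + 1 := ⟨j - 1, by omega⟩
    rw [Nat.add_sub_cancel] at h3
    have h4 : hrR (ty φ 0 j) 41 = true := by
      rcases Nat.eq_zero_or_pos j with h5 | h5
      · rw [h5, t00]
        decide
      · rw [t0j j h5]
        decide
    have h5 := j3_s1 (hH 0 (by omega) j hj 41 h4) h3
    have hg := (hG 0 (by omega) (j + 1) hj).1
    rw [t0j (j + 1) hj1] at hg
    constructor
    · rw [decide_eq_false_iff_not]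
      intro h6
      exact j3_n2 (hg [(0, (0, 41), false), (1, (63, 41), true)]
        (by simp [tile, tileBF, goalsBF])) (j3_f h5) (j3_t h6)
    · rw [decide_eq_false_iff_not]
      intro h6
      exact j3_n2 (hg [(0, (0, 41), false), (2, (15, 61), true)]
        (by simp [tile, tileBF, goalsBF])) (j3_f h5) (j3_t h6)
  · -- tA
    intro i hi hi2 h3
    rw [decide_eq_false_iff_not] at h3
    have hty := tA i hi hi2
    have h4 : vcT (ty φ (i - 1) 0) 4 = true := by
      rcases Nat.eq_zero_or_pos (i - 1) with h5 | h5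
      · rw [h5, t00]
        decide
      · rw [tB (i - 1) h5 (by omega) (by omega)]
        decide
    have h5 := hV (i - 1) (by omega) 0 (by omega) 4 h4
    have e1 : i - 1 + 1 = i := by omega
    rw [e1] at h5
    have h6 := j3_s1 h5 h3
    have hg := (hG i (by omega) 0 (by omega)).1
    rw [hty] at hg
    refine ⟨?_, ?_, ?_⟩
    · rw [decide_eq_false_iff_not]
      intro h7
      exact j3_n2 (hg [(3, (4, 0), false), (4, (4, 61), true)]
        (by simp [tile, tileA, goalsA])) (j3_f h6) (j3_t h7)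
    · rw [decide_eq_false_iff_not]
      intro h7
      exact j3_n2 (hg [(3, (4, 0), false), (10, (63, 41), true)]
        (by simp [tile, tileA, goalsA])) (j3_f h6) (j3_t h7)
    · intro h7
      rw [decide_eq_true_eq] at h7 ⊢
      by_contra h8
      have h9 := hV i (by omega) 0 (by omega) 25 (by rw [hty]; decide)
      exact j3_n3 (hg [(3, (4, 0), false), (1, (63, 23), true), (8, (25, 61), false)]
        (by simp [tile, tileA, goalsA])) (j3_f h6) (j3_t h7) (j3_f (j3_s4 h9 h8))
  · -- tB
    intro i hi0 hi hi2 h3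
    rw [decide_eq_false_iff_not] at h3
    have hty := tB i hi0 hi hi2
    have hty' := tA (i - 1) (by omega) (by omega)
    have e1 : i - 1 + 1 = i := by omega
    have h5 := hV (i - 1) (by omega) 0 (by omega) 4 (by rw [hty']; decide)
    rw [e1] at h5
    have h6 := j3_s1 h5 h3
    have hg := (hG i (by omega) 0 (by omega)).1
    rw [hty] at hg
    refine ⟨?_, ?_, ?_⟩
    · rw [decide_eq_false_iff_not]
      intro h7
      exact j3_n2 (hg [(3, (4, 0), false), (4, (4, 61), true)]
        (by simp [tile, tileB, goalsB])) (j3_f h6) (j3_t h7)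
    · rw [decide_eq_false_iff_not]
      intro h7
      exact j3_n2 (hg [(3, (4, 0), false), (6, (63, 41), true)]
        (by simp [tile, tileB, goalsB])) (j3_f h6) (j3_t h7)
    · rintro ⟨h7, h8⟩
      rw [decide_eq_true_eq] at h7 h8
      have h9 := hV (i - 1) (by omega) 0 (by omega) 25 (by rw [hty']; decide)
      rw [e1] at h9
      exact j3_n3 (hg [(3, (4, 0), false), (1, (63, 23), true), (0, (25, 0), true)]
        (by simp [tile, tileB, goalsB])) (j3_f h6) (j3_t h7) (j3_t (j3_s2 h9 h8))
  · -- tC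
    intro i j hi0 hi hj1 hj h3
    rw [decide_eq_false_iff_not] at h3
    obtain ⟨j, rfl⟩ : ∃ j', j = j' + 1 := ⟨j - 1, by omega⟩
    rw [Nat.add_sub_cancel] at h3 ⊢
    have hty := tC i (j + 1) hi0 hi hj1
    have hle : ty φ i j ≤ 3 := by
      rcases Nat.eq_zero_or_pos j with h5 | h5
      · rw [h5]
        rcases Nat.mod_two_eq_zero_or_one i with h6 | h6
        · rw [tB i hi0 hi h6]
        · rw [tA i hi h6]
          omega
      · rw [tC i j hi0 hi h5]
        split_ifs <;> omega
    have hr : ∀ y, (y = 23 ∨ y = 41) → hrR (ty φ i j) y = true := by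
      intro y hy
      unfold hrR
      rw [if_pos hle, decide_eq_true_eq]
      omega
    have h41 := hH i (by omega) j hj 41 (hr 41 (Or.inr rfl))
    have h23 := hH i (by omega) j hj 23 (hr 23 (Or.inl rfl))
    have h5 := j3_s1 h41 h3
    have e1 : i - 1 + 1 = i := by omega
    have h15 : 0 < j3S e (i - 1) (j + 1) 15 61 * j3S e i (j + 1) 15 0 := by
      have h6 : vcT (ty φ (i - 1) (j + 1)) 15 = true := by
        rcases Nat.eq_zero_or_pos (i - 1) with h7 | h7
        · rw [h7, t0j (j + 1) hj1]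
          decide
        · rw [tC (i - 1) (j + 1) h7 (by omega) hj1]
          split_ifs <;> decide
      have h7 := hV (i - 1) (by omega) (j + 1) hj 15 h6
      rwa [e1] at h7
    have hg := (hG i (by omega) (j + 1) hj).1
    rw [hty] at hg
    by_cases hin : inCl (litRow i) (clOf φ (j + 1)) = true
    · rw [if_pos hin] at hg
      refine ⟨?_, ?_, ?_⟩
      · rw [decide_eq_false_iff_not]
        intro h7
        exact j3_n2 (hg [(11, (0, 41), false), (13, (63, 41), true)]
          (by simp [tile, tileO, goalsO])) (j3_f h5) (j3_t h7)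
      · intro h7
        rw [decide_eq_true_eq] at h7 ⊢
        by_contra h8
        exact j3_n3 (hg [(11, (0, 41), false), (5, (63, 23), true), (6, (0, 23), false)]
          (by simp [tile, tileO, goalsO])) (j3_f h5) (j3_t h7) (j3_f (j3_s1 h23 h8))
      · intro h7
        rw [decide_eq_true_eq] at h7
        rw [decide_eq_true_eq, decide_eq_true_eq]
        by_contra h8
        rw [not_or, not_and] at h8
        exact j3_n4 (hg [(11, (0, 41), false), (10, (15, 61), true), (3, (15, 0), false),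
          (6, (0, 23), false)] (by simp [tile, tileO, goalsO])) (j3_f h5) (j3_t h7)
          (j3_f (j3_s1 h15 h8.1)) (j3_f (j3_s1 h23 (h8.2 hin)))
    · rw [if_neg hin] at hg
      refine ⟨?_, ?_, ?_⟩
      · rw [decide_eq_false_iff_not]
        intro h7
        exact j3_n2 (hg [(10, (0, 41), false), (12, (63, 41), true)]
          (by simp [tile, tileC, goalsC])) (j3_f h5) (j3_t h7)
      · intro h7
        rw [decide_eq_true_eq] at h7 ⊢
        by_contra h8
        exact j3_n3 (hg [(10, (0, 41), false), (5, (63, 23), true), (0, (0, 23), false)]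
          (by simp [tile, tileC, goalsC])) (j3_f h5) (j3_t h7) (j3_f (j3_s1 h23 h8))
      · intro h7
        rw [decide_eq_true_eq] at h7
        rw [decide_eq_true_eq, decide_eq_true_eq]
        by_contra h8
        rw [not_or] at h8
        exact j3_n3 (hg [(10, (0, 41), false), (9, (15, 61), true), (3, (15, 0), false)]
          (by simp [tile, tileC, goalsC])) (j3_f h5) (j3_t h7) (j3_f (j3_s1 h15 h8.1))
  · -- tl
    have hg := (hG (nR φ - 1) (by omega) 0 (by omega)).1
    rw [tL] at hg
    rw [decide_eq_true_eq]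
    by_contra h3
    have h4 := hH (nR φ - 1) (by omega) 0 (by omega) 19 (by rw [tL]; decide)
    exact j3_n1 (hg [(1, (63, 19), false)] (by simp [tile, tileTL, goalsTL]))
      (j3_f (j3_s4 h4 h3))
  · -- tf
    intro j hj1 hj h3
    rw [decide_eq_true_eq] at h3
    obtain ⟨j, rfl⟩ : ∃ j', j = j' + 1 := ⟨j - 1, by omega⟩
    rw [Nat.add_sub_cancel] at h3
    have h4 : hrR (ty φ (nR φ - 1) j) 19 = true := by
      rcases Nat.eq_zero_or_pos j with h5 | h5
      · rw [h5, tL]
        decide
      · rw [tF j h5]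
        decide
    have h5 := j3_s2 (hH (nR φ - 1) (by omega) j hj 19 h4) h3
    obtain ⟨hg, hn⟩ := hG (nR φ - 1) (by omega) (j + 1) hj
    rw [tF (j + 1) hj1] at hg hn
    constructor
    · rw [decide_eq_true_eq]
      by_contra h6
      have h7 : j3S e (nR φ - 1) (j + 1) 63 19 ≠ 0 := by
        obtain ⟨c, hc, hq⟩ : ∃ c ∈ (tile 6).comps, ((63, 19) : ℕ × ℕ) ∈ c := by
          decide +kernel
        exact hn c hc _ hq
      have h8 : j3S e (nR φ - 1) (j + 1) 63 19 < 0 := by omega
      exact j3_n2 (hg [(0, (0, 19), true), (1, (63, 19), false)]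
        (by simp [tile, tileTF, goalsTF])) (j3_t h5) (j3_f h8)
    · rw [decide_eq_true_eq]
      by_contra h6
      have h7 := hV (nR φ - 2) (by omega) (j + 1) hj 15 (by
        rw [tC (nR φ - 2) (j + 1) (by omega) (by omega) hj1]
        split_ifs <;> decide)
      have e1 : nR φ - 2 + 1 = nR φ - 1 := by omega
      rw [e1] at h7
      exact j3_n2 (hg [(0, (0, 19), true), (2, (15, 0), false)]
        (by simp [tile, tileTF, goalsTF])) (j3_t h5) (j3_f (j3_s1 h7 h6))

end Pool.Agent.W982.TA
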